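import Pool.Agent.Lib.helper9.RMT

open Set Filter Metric Complex Topology ComplexConjugate
open Pool.Agent.Lib.helper9.RMT

namespace Pool.Agent.H.MP_354547_an

lemma harnack {W : ℂ → ℂ} {w : ℝ} (hd : DifferentiableOn ℂ W (ball 0 1))
    (hr : ∀ ζ ∈ ball (0 : ℂ) 1, 0 ≤ (W ζ).re) (h0 : W 0 = w) (hw : 0 < w) {ζ : ℂ}
    (hζ : ζ ∈ ball (0 : ℂ) 1) : w * (1 - ‖ζ‖) / 2 ≤ ‖W ζ‖ := by
  have hne : ∀ ζ ∈ ball (0 : ℂ) 1, W ζ + w ≠ 0 := fun ζ hζ e => by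
    have := congrArg re e
    simp at this; linarith [hr ζ hζ]
  have h1 := norm_le_norm_of_mapsTo_ball (f := fun ζ => (W ζ - w) / (W ζ + w)) (R := 1)
    ((hd.sub_const _).div (hd.add_const _) hne) (fun ζ hζ => by
      rw [mem_closedBall_zero_iff, norm_div, div_le_one (norm_pos_iff.2 (hne ζ hζ))]
      refine (pow_le_pow_iff_left₀ (norm_nonneg _) (norm_nonneg _) two_ne_zero).1 ?_
      simp only [Complex.sq_norm, normSq_apply, sub_re, sub_im, add_re, add_im, ofReal_re,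
        ofReal_im]
      nlinarith [mul_nonneg (hr ζ hζ) hw.le]) (by simp [h0]) (mem_ball_zero_iff.1 hζ)
  simp only [norm_div] at h1
  rw [div_le_iff₀ (norm_pos_iff.2 (hne ζ hζ))] at h1
  have h2 := norm_sub_norm_le (w : ℂ) (W ζ)
  have h3 := norm_add_le (W ζ) w
  rw [norm_sub_rev] at h2
  rw [norm_real, Real.norm_of_nonneg hw.le] at h2 h3
  have h4 := mem_ball_zero_iff.1 hζ
  have h5 := mul_le_mul_of_nonneg_left h3 (norm_nonneg ζ)
  nlinarith [norm_nonneg ζ, norm_nonneg (W ζ)]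

lemma sector {G : ℂ → ℂ} {g c α : ℝ} (hd : DifferentiableOn ℂ G (ball 0 1))
    (hn : ∀ ζ ∈ ball (0 : ℂ) 1, G ζ ≠ 0) (hs : ∀ ζ ∈ ball (0 : ℂ) 1, c * ‖G ζ‖ ≤ (G ζ).re)
    (hc : -1 < c) (hα : 0 < α) (ha : α * Real.arccos c ≤ Real.pi / 2) (h0 : G 0 = g) (hg : 0 < g)
    {ζ : ℂ} (hζ : ζ ∈ ball (0 : ℂ) 1) : g ^ α * (1 - ‖ζ‖) / 2 ≤ ‖G ζ‖ ^ α := by
  have harg : ∀ ζ ∈ ball (0 : ℂ) 1, |arg (G ζ)| ≤ Real.arccos c := fun ζ hζ => by
    rw [← Real.arccos_cos (abs_nonneg _) (abs_arg_le_pi _), Real.cos_abs, cos_arg (hn ζ hζ)]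
    exact Real.arccos_le_arccos ((le_div_iff₀ (norm_pos_iff.2 (hn ζ hζ))).2 (hs ζ hζ))
  have hsl : ∀ ζ ∈ ball (0 : ℂ) 1, G ζ ∈ slitPlane := fun ζ hζ => by
    refine mem_slitPlane_iff_arg.2 ⟨fun e => ?_, hn ζ hζ⟩
    have := harg ζ hζ
    rw [e, abs_of_pos Real.pi_pos] at this
    exact this.not_gt (Real.arccos_lt_pi.2 hc)
  rw [← norm_cpow_real]
  refine harnack (W := fun ζ => G ζ ^ (α : ℂ)) (hd.cpow_const hsl) (fun ζ hζ => ?_)
    (by simp only [h0]; rw [ofReal_cpow hg.le]) (Real.rpow_pos_of_pos hg _) hζ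
  rw [cpow_ofReal_re]
  refine mul_nonneg (by positivity) (Real.cos_nonneg_of_mem_Icc (abs_le.1 ?_))
  rw [abs_mul, abs_of_pos hα, mul_comm]
  exact (mul_le_mul_of_nonneg_left (harg ζ hζ) hα.le).trans ha

lemma extend {φ : ℂ → ℂ} {K γ : ℝ} (hd : DifferentiableOn ℂ φ (ball 0 1)) (hγ : 0 < γ)
    (hγ1 : γ ≤ 1) (hK : 0 ≤ K)
    (hb : ∀ ζ ∈ ball (0 : ℂ) 1, ‖deriv φ ζ‖ ≤ K * (γ * (1 - ‖ζ‖) ^ (γ - 1))) :
    ∃ Φ, ContinuousOn Φ (closedBall 0 1) ∧ EqOn Φ φ (ball 0 1) := by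
  have hm : ∀ ζ ∈ closedBall (0 : ℂ) 1, ∀ t : ℝ, 0 ≤ t → t < 1 → (t : ℂ) * ζ ∈ ball (0 : ℂ) 1 := by
    intro ζ hζ t h0 h1
    rw [mem_ball_zero_iff, norm_mul, norm_real, Real.norm_of_nonneg h0]
    exact lt_of_le_of_lt (mul_le_of_le_one_right h0 (mem_closedBall_zero_iff.1 hζ)) h1
  have rad : ∀ ζ ∈ ball (0 : ℂ) 1, ∀ r : ℝ, 0 ≤ r → r ≤ 1 →
      ‖φ ζ - φ (r * ζ)‖ ≤ K * (1 - r) ^ γ := by
    intro ζ hζ r r0 r1
    have hz := mem_ball_zero_iff.1 hζ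
    have hm' : ∀ t ∈ Icc r 1, (t : ℂ) * ζ ∈ ball (0 : ℂ) 1 := fun t ht => by
      rw [mem_ball_zero_iff, norm_mul, norm_real, Real.norm_of_nonneg (r0.trans ht.1)]
      exact lt_of_le_of_lt (mul_le_of_le_one_left (norm_nonneg _) ht.2) hz
    have hD : ∀ t ∈ Icc r 1, HasDerivAt (fun t : ℝ => φ (t * ζ) - φ (r * ζ))
        (deriv φ (t * ζ) * ζ) t := fun t ht => by
      have h1 : HasDerivAt (fun t : ℂ => φ (t * ζ)) (deriv φ (t * ζ) * ζ) t := by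
        exact ((hd.differentiableAt (isOpen_ball.mem_nhds (hm' t ht))).hasDerivAt.comp (t : ℂ)
          ((hasDerivAt_id' (t : ℂ)).mul_const ζ)).congr_deriv (by ring)
      exact h1.comp_ofReal.sub_const _
    have := image_norm_le_of_norm_deriv_right_le_deriv_boundary'
      (f := fun t : ℝ => φ (t * ζ) - φ (r * ζ)) (a := r) (b := 1)
      (fun t ht => (hD t ht).continuousAt.continuousWithinAt)
      (fun t ht => (hD t (Ico_subset_Icc_self ht)).hasDerivWithinAt)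
      (B := fun t => K * ((1 - r) ^ γ - (1 - t) ^ γ)) (B' := fun t => K * (γ * (1 - t) ^ (γ - 1)))
      (by simp) (Continuous.continuousOn (continuous_const.mul (continuous_const.sub
        ((continuous_const.sub continuous_id).rpow_const fun _ => Or.inr hγ.le))))
      (fun t ht => by
        have h1 := (((hasDerivAt_id' t).const_sub 1).rpow_const (p := γ)
          (Or.inl (by linarith [ht.2]))).const_sub ((1 - r) ^ γ)
        exact ((h1.const_mul K).congr_deriv (by ring)).hasDerivWithinAt)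
      (fun t ht => by
        rw [norm_mul]
        refine (mul_le_of_le_one_right (norm_nonneg _) hz.le).trans
          ((hb _ (hm' t (Ico_subset_Icc_self ht))).trans ?_)
        refine mul_le_mul_of_nonneg_left (mul_le_mul_of_nonneg_left ?_ hγ.le) hK
        refine Real.rpow_le_rpow_of_nonpos (by linarith [ht.2]) ?_ (by linarith)
        rw [norm_mul, norm_real, Real.norm_of_nonneg (r0.trans ht.1)]
        linarith [mul_le_of_le_one_right (r0.trans ht.1) hz.le]) (right_mem_Icc.2 r1)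
    simpa [Real.zero_rpow hγ.ne'] using this
  have cl : closedBall (0 : ℂ) 1 ⊆ closure (ball 0 1) := (closure_ball _ one_ne_zero).ge
  refine ⟨extendFrom (ball 0 1) φ, continuousOn_extendFrom cl (fun ξ hξ => ?_),
    extendFrom_extends hd.continuousOn⟩
  have := mem_closure_iff_nhdsWithin_neBot.1 (cl hξ)
  refine cauchy_map_iff_exists_tendsto.1 (Metric.cauchy_iff.2 ⟨inferInstance, fun ε hε => ?_⟩)
  have h1 : Tendsto (fun r : ℝ => K * (1 - r) ^ γ) (𝓝[<] 1) (𝓝 0) := by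
    have : Continuous (fun r : ℝ => K * (1 - r) ^ γ) := continuous_const.mul
      ((continuous_const.sub continuous_id).rpow_const fun _ => Or.inr hγ.le)
    simpa [Real.zero_rpow hγ.ne'] using (this.tendsto 1).mono_left nhdsWithin_le_nhds
  obtain ⟨r, h2, h3⟩ := ((h1.eventually (gt_mem_nhds (show 0 < ε / 4 by positivity))).and
    (Ioo_mem_nhdsLT zero_lt_one)).exists
  have h4 : ContinuousAt (fun ζ => φ (r * ζ)) ξ :=
    ContinuousAt.comp (f := fun ζ : ℂ => (r : ℂ) * ζ)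
      (hd.continuousOn.continuousAt (isOpen_ball.mem_nhds (hm ξ hξ r h3.1.le h3.2))) (by fun_prop)
  refine ⟨ball (φ (r * ξ)) (ε / 2), ?_, fun x hx y hy => ?_⟩
  · rw [mem_map]
    filter_upwards [self_mem_nhdsWithin, mem_nhdsWithin_of_mem_nhds
      (Metric.tendsto_nhds.1 h4 (ε / 4) (by positivity))] with ζ h5 h6
    have h7 := rad ζ h5 r h3.1.le h3.2.le
    rw [← dist_eq_norm] at h7
    have h6' : dist (φ (r * ζ)) (φ (r * ξ)) < ε / 4 := h6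
    show dist (φ ζ) _ < _
    linarith [dist_triangle (φ ζ) (φ (r * ζ)) (φ (r * ξ))]
  · linarith [dist_triangle_right x y (φ (r * ξ)), mem_ball.1 hx, mem_ball.1 hy]

lemma conf_p {Ω : Set ℂ} {p : ℂ} {ψ φ : ℂ → ℂ} (h : Conf Ω p ψ φ) (hp : p ∈ Ω) : φ 0 = p := by
  rw [← h.z, h.l p hp]

lemma conf_deriv {Ω : Set ℂ} {p : ℂ} {ψ φ : ℂ → ℂ} (h : Conf Ω p ψ φ) (hΩ : IsOpen Ω) {ζ : ℂ}
    (hζ : ζ ∈ ball (0 : ℂ) 1) : deriv ψ (φ ζ) * deriv φ ζ = 1 := by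
  have h1 := (h.dψ.differentiableAt (hΩ.mem_nhds (h.mφ hζ))).hasDerivAt.comp ζ
    (h.dφ.differentiableAt (isOpen_ball.mem_nhds hζ)).hasDerivAt
  refine h1.unique ((hasDerivAt_id ζ).congr_of_eventuallyEq ?_)
  filter_upwards [isOpen_ball.mem_nhds hζ] with w hw
  exact h.r w hw

lemma spiral {Ω : Set ℂ} {p : ℂ} {ψ φ : ℂ → ℂ} (h : Conf Ω p ψ φ) (hΩ : IsOpen Ω) (hp : p ∈ Ω)
    {η : ℂ} (hη : ∀ y ∈ Ω, ∀ s : ℝ, 0 < s → s < 1 → y - s * (η * (y - p)) ∈ Ω) {ζ : ℂ}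
    (hζ : ζ ∈ ball (0 : ℂ) 1) (h0 : ζ ≠ 0) :
    0 ≤ (η * (dslope φ 0 ζ * deriv ψ (φ ζ))).re := by
  have hp0 := conf_p h hp
  have h1 : ∀ s : ℝ, 0 < s → s < 1 → ‖ψ (φ ζ - s * (η * (φ ζ - p)))‖ ≤ ‖ζ‖ := fun s s0 s1 =>
    norm_le_norm_of_mapsTo_ball (f := fun ζ => ψ (φ ζ - s * (η * (φ ζ - p)))) (R := 1)
      (h.dψ.comp (h.dφ.sub (((h.dφ.sub_const p).const_mul η).const_mul _))
        (fun w hw => hη _ (h.mφ hw) s s0 s1))
      (fun w hw => ball_subset_closedBall (h.mψ (hη _ (h.mφ hw) s s0 s1)))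
      (by simp [hp0, h.z]) (mem_ball_zero_iff.1 hζ)
  have h2 : HasDerivAt (fun s : ℂ => ψ (φ ζ - s * (η * (φ ζ - p))) / ζ)
      (-(η * (dslope φ 0 ζ * deriv ψ (φ ζ)))) ((0 : ℝ) : ℂ) := by
    have a1 : HasDerivAt (fun s : ℂ => φ ζ - s * (η * (φ ζ - p))) (-(η * (φ ζ - p))) 0 := by
      simpa using ((hasDerivAt_id (0 : ℂ)).mul_const (η * (φ ζ - p))).const_sub (φ ζ)
    have a2 := (HasDerivAt.comp_of_eq 0
      (h.dψ.differentiableAt (hΩ.mem_nhds (h.mφ hζ))).hasDerivAt a1 (by simp)).div_const ζ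
    refine a2.congr_deriv ?_
    rw [dslope_of_ne _ h0, slope_def_field, hp0, sub_zero]; ring
  have h3 := hasDerivAt_iff_tendsto_slope_zero.1 h2.real_of_complex
  have h4 := le_of_tendsto (h3.mono_left (nhdsGT_le_nhdsNE 0)) (b := 0) (by
    filter_upwards [Ioo_mem_nhdsGT zero_lt_one] with s hs
    simp only [zero_add, ofReal_zero, zero_mul, sub_zero, h.r ζ hζ, div_self h0, one_re,
      smul_eq_mul]
    refine mul_nonpos_of_nonneg_of_nonpos (inv_nonneg.2 hs.1.le) (sub_nonpos.2 ?_)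
    refine (re_le_norm _).trans ?_
    rw [norm_div, div_le_one (norm_pos_iff.2 h0)]
    exact h1 s hs.1 hs.2)
  rw [neg_re] at h4
  linarith

lemma star_ext {Ω : Set ℂ} {p : ℂ} {ψ φ : ℂ → ℂ} (h : Conf Ω p ψ φ) (hΩ : IsOpen Ω) (hp : p ∈ Ω)
    {R τ : ℝ} (hR : Ω ⊆ ball p R) (hτ : 0 < τ)
    (h1 : ∀ y ∈ Ω, ∀ s : ℝ, 0 < s → s < 1 → y - s * ((1 + τ * I) * (y - p)) ∈ Ω)
    (h2 : ∀ y ∈ Ω, ∀ s : ℝ, 0 < s → s < 1 → y - s * ((1 - τ * I) * (y - p)) ∈ Ω) :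
    ∃ Φ, ContinuousOn Φ (closedBall 0 1) ∧ EqOn Φ φ (ball 0 1) := by
  have hp0 := conf_p h hp
  have b0 : (0 : ℂ) ∈ ball (0 : ℂ) 1 := mem_ball_self one_pos
  have R0 : 0 < R := pos_of_mem_ball (hR hp)
  set Q : ℂ → ℂ := fun ζ => dslope φ 0 ζ * deriv ψ (φ ζ) with hQ
  have Qd : DifferentiableOn ℂ Q (ball 0 1) :=
    ((differentiableOn_dslope (ball_mem_nhds _ one_pos)).2 h.dφ).mul
      ((h.dψ.deriv hΩ).comp h.dφ h.mφ)
  have Q0 : Q 0 = (1 : ℝ) := by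
    simp only [hQ, dslope_same, ofReal_one]; rw [mul_comm]; exact conf_deriv h hΩ b0
  have Qn : ∀ ζ ∈ ball (0 : ℂ) 1, Q ζ ≠ 0 := by
    intro ζ hζ
    by_cases h0 : ζ = 0
    · rw [h0, Q0]; simp
    refine mul_ne_zero ?_ (left_ne_zero_of_mul_eq_one (conf_deriv h hΩ hζ))
    rw [dslope_of_ne _ h0, slope_def_field, sub_zero]
    refine div_ne_zero (sub_ne_zero.2 fun e => h0 ?_) h0
    rw [← h.r ζ hζ, e, h.r 0 b0]
  have c0 : 0 < τ / (1 + τ) := by positivity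
  have c1 : τ / (1 + τ) < 1 := by rw [div_lt_one (by positivity)]; linarith
  have Qs : ∀ ζ ∈ ball (0 : ℂ) 1, τ / (1 + τ) * ‖Q ζ‖ ≤ (Q ζ).re := by
    intro ζ hζ
    by_cases h0 : ζ = 0
    · rw [h0, Q0]; simpa using c1.le
    have a1 := spiral h hΩ hp h1 hζ h0
    have a2 := spiral h hΩ hp h2 hζ h0
    change 0 ≤ ((1 + τ * I) * Q ζ).re at a1
    change 0 ≤ ((1 - τ * I) * Q ζ).re at a2
    simp only [mul_re, add_re, sub_re, add_im, sub_im, one_re, one_im, ofReal_re, ofReal_im, I_re,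
      I_im, mul_im] at a1 a2
    have a3 : τ * |(Q ζ).im| ≤ (Q ζ).re := by
      rcases abs_cases (Q ζ).im with h | h <;> rw [h.1] <;> linarith
    have a4 : 0 ≤ (Q ζ).re := le_trans (by positivity) a3
    have a5 := norm_le_abs_re_add_abs_im (Q ζ)
    rw [abs_of_nonneg a4] at a5
    rw [div_mul_eq_mul_div, div_le_iff₀ (by positivity)]
    nlinarith
  set θ := Real.arccos (τ / (1 + τ)) with hθ
  have θ0 : 0 < θ := Real.arccos_pos.2 c1
  have θ1 : θ < Real.pi / 2 := Real.arccos_lt_pi_div_two.2 c0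
  have hπ := Real.pi_pos
  set β := θ / (Real.pi / 2) with hβ
  have β0 : 0 < β := by positivity
  have β1 : β < 1 := by rw [hβ, div_lt_one (by positivity)]; exact θ1
  refine extend (K := R * 2 / (1 - β)) (γ := 1 - β) h.dφ (by linarith) (by linarith)
    (div_nonneg (by positivity) (by linarith)) (fun ζ hζ => ?_)
  have hz := mem_ball_zero_iff.1 hζ
  have a1 := sector (α := β⁻¹) Qd Qn Qs (by linarith) (by positivity)
    (le_of_eq (by rw [hβ, ← hθ]; field_simp)) Q0 one_pos hζ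
  rw [Real.one_rpow, one_mul] at a1
  have a2 : ((1 - ‖ζ‖) / 2) ^ β ≤ ‖Q ζ‖ := by
    refine (Real.rpow_le_rpow (by linarith) a1 β0.le).trans (le_of_eq ?_)
    rw [← Real.rpow_mul (norm_nonneg _), inv_mul_cancel₀ β0.ne', Real.rpow_one]
  have a3 : (1 - ‖ζ‖) ^ β / 2 ≤ ‖Q ζ‖ := by
    refine le_trans ?_ a2
    rw [Real.div_rpow (by linarith) (by norm_num)]
    have : (2 : ℝ) ^ β ≤ 2 := by
      simpa using Real.rpow_le_rpow_of_exponent_le (x := 2) one_le_two β1.le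
    have : 0 ≤ (1 - ‖ζ‖) ^ β := Real.rpow_nonneg (by linarith) _
    gcongr
  have a4 : ‖dslope φ 0 ζ‖ ≤ R / 1 := norm_dslope_le_div_of_mapsTo_ball h.dφ
    (fun w hw => by rw [hp0]; exact ball_subset_closedBall (hR (h.mφ hw))) hζ
  have a5 : Q ζ * deriv φ ζ = dslope φ 0 ζ := by
    simp only [hQ]; rw [mul_assoc, conf_deriv h hΩ hζ, mul_one]
  have a6 : 0 < (1 - ‖ζ‖) ^ β := Real.rpow_pos_of_pos (by linarith) _
  rw [← a5, norm_mul, div_one] at a4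
  have e : R * 2 / (1 - β) * ((1 - β) * (1 - ‖ζ‖) ^ (1 - β - 1)) = R / ((1 - ‖ζ‖) ^ β / 2) := by
    rw [show 1 - β - 1 = -β by ring, Real.rpow_neg (by linarith)]
    have : 1 - β ≠ 0 := by linarith
    field_simp
  rw [e, le_div_iff₀ (by positivity)]
  nlinarith [norm_nonneg (deriv φ ζ)]

end Pool.Agent.H.MP_354547_an
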