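import Pool.Agent.H.MP_354547_an.A

open Set Filter Metric Complex Topology ComplexConjugate MeasureTheory

namespace Pool.Agent.H.MP_354547_an

theorem glue {f : ℂ → ℂ} {U : Set ℂ} (hU : IsOpen U) (hc : ContinuousOn f U)
    (hd : ∀ z ∈ U, z.im ≠ 0 → DifferentiableAt ℂ f z) : DifferentiableOn ℂ f U := by
  refine (isConservativeOn_and_continuousOn_iff_isDifferentiableOn hU).mp ⟨fun z w h => ?_, hc⟩
  have key := fun (z w : ℂ) (h : Rectangle z w ⊆ U) (h0 : 0 ≤ z.im * w.im) =>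
    integral_boundary_rect_eq_zero_of_continuousOn_of_differentiableOn f z w (hc.mono h)
      fun x hx => (hd x (h ⟨Ioo_subset_Icc_self hx.1, Ioo_subset_Icc_self hx.2⟩) fun e => by
        have h1 := hx.2.1
        have h2 := hx.2.2
        rw [e] at h1 h2
        rcases le_total z.im w.im with l | l
        · rw [min_eq_left l] at h1
          rw [max_eq_right l] at h2
          nlinarith
        · rw [min_eq_right l] at h1
          rw [max_eq_left l] at h2
          nlinarith).differentiableWithinAt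
  rw [eq_neg_iff_add_eq_zero, wedgeIntegral_add_wedgeIntegral_eq]
  rcases le_or_gt 0 (z.im * w.im) with h0 | h0
  · exact key z w h h0
  have m0 : (0 : ℝ) ∈ uIcc z.im w.im := by
    rcases mul_neg_iff.mp h0 with ⟨a, b⟩ | ⟨a, b⟩
    · exact mem_uIcc_of_ge b.le a.le
    · exact mem_uIcc_of_le a.le b.le
  have s1 := uIcc_subset_uIcc_left m0
  have s2 := uIcc_subset_uIcc_right m0
  have k1 := key z ⟨w.re, 0⟩ (fun x hx => h ⟨hx.1, s1 hx.2⟩) (by simp)
  have k2 := key ⟨z.re, 0⟩ w (fun x hx => h ⟨hx.1, s2 hx.2⟩) (by simp)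
  have ii : ∀ x ∈ uIcc z.re w.re, ContinuousOn (fun y : ℝ => f (x + y * I)) (uIcc z.im w.im) :=
    fun x hx => hc.comp (by fun_prop) fun y hy => h ⟨by simpa using hx, by simpa using hy⟩
  have a1 := fun x hx => intervalIntegral.integral_add_adjacent_intervals
    ((ii x hx).mono s1).intervalIntegrable (μ := volume) ((ii x hx).mono s2).intervalIntegrable
  rw [← a1 _ left_mem_uIcc, ← a1 _ right_mem_uIcc]
  simp only [smul_eq_mul] at k1 k2 ⊢
  linear_combination k1 + k2

def Hc (r : ℝ) : Set ℂ := {w | ‖w‖ < r ∧ 0 ≤ w.im}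

lemma Hc_mono {r r' : ℝ} (h : r ≤ r') : Hc r ⊆ Hc r' := fun _ hw => ⟨hw.1.trans_le h, hw.2⟩

lemma real_Hc {r t : ℝ} (h : |t| < r) : (t : ℂ) ∈ Hc r := ⟨by simpa using h, by simp⟩

lemma reflect {F : ℂ → ℂ} {r : ℝ} (hr : 0 < r) (hc : ContinuousOn F (Hc r))
    (hd : ∀ w ∈ Hc r, 0 < w.im → DifferentiableAt ℂ F w) (h0 : ∀ t : ℝ, |t| < r → (F t).im = 0) :
    ∃ G, AnalyticAt ℂ G 0 ∧ EqOn G F (Hc r) := by
  classical
  set G : ℂ → ℂ := fun z => if 0 ≤ z.im then F z else conj (F (conj z)) with hG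
  have e1 : EqOn G F (Hc r) := fun z hz => if_pos hz.2
  have hm : ∀ z : ℂ, ‖z‖ < r → z.im ≤ 0 → conj z ∈ Hc r := fun z h1 h2 =>
    ⟨by simpa using h1, by simpa using h2⟩
  have e2 : EqOn G (fun z => conj (F (conj z))) {w | ‖w‖ < r ∧ w.im ≤ 0} := by
    intro z hz
    by_cases h : 0 ≤ z.im
    · have h1 : z = z.re := Complex.ext (by simp) (by simpa using le_antisymm hz.2 h)
      have h2 := h0 z.re ((abs_re_le_norm z).trans_lt hz.1)
      simp only [hG, if_pos h]
      rw [h1, conj_ofReal, conj_eq_iff_im.2 h2]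
    · exact if_neg h
  have c2 : ContinuousOn G {w | ‖w‖ < r ∧ w.im ≤ 0} :=
    (continuous_conj.comp_continuousOn (hc.comp continuous_conj.continuousOn
      fun z hz => hm z hz.1 hz.2)).congr e2
  refine ⟨G, (glue isOpen_ball (fun z hz => ?_) (fun z hz h => ?_)).analyticAt
    (ball_mem_nhds 0 hr), e1⟩
  · have hz' := mem_ball_zero_iff.1 hz
    refine ContinuousWithinAt.mono (t := Hc r ∪ {w | ‖w‖ < r ∧ w.im ≤ 0})
      (ContinuousWithinAt.union ?_ ?_) (fun w hw => (le_total 0 w.im).imp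
        (fun h => ⟨mem_ball_zero_iff.1 hw, h⟩) (fun h => ⟨mem_ball_zero_iff.1 hw, h⟩))
    · by_cases h : 0 ≤ z.im
      · exact (hc.congr e1) z ⟨hz', h⟩
      · exact continuousWithinAt_of_notMem_closure fun h' => h (closure_minimal
          (t := {w : ℂ | 0 ≤ w.im}) (fun w hw => hw.2)
          (isClosed_le continuous_const continuous_im) h')
    · by_cases h : z.im ≤ 0
      · exact c2 z ⟨hz', h⟩
      · exact continuousWithinAt_of_notMem_closure fun h' => h (closure_minimal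
          (t := {w : ℂ | w.im ≤ 0}) (fun w hw => hw.2)
          (isClosed_le continuous_im continuous_const) h')
  · have hz' := mem_ball_zero_iff.1 hz
    rcases lt_or_gt_of_ne h with h | h
    · have h1 := (hd _ (hm z hz' h.le) (by simpa using h)).conj_conj
      rw [conj_conj] at h1
      refine h1.congr_of_eventuallyEq ?_
      filter_upwards [(isOpen_lt continuous_im continuous_const).mem_nhds h] with w hw
      exact if_neg (not_le.2 hw)
    · refine (hd z ⟨hz', h.le⟩ h).congr_of_eventuallyEq ?_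
      filter_upwards [(isOpen_lt continuous_const continuous_im).mem_nhds h] with w hw
      exact if_pos (le_of_lt hw)

lemma ev_real {P : ℂ → Prop} (h : ∀ᶠ w in 𝓝 (0 : ℂ), P w) : ∀ᶠ t : ℝ in 𝓝 0, P t := by
  have : Tendsto (fun t : ℝ => (t : ℂ)) (𝓝 0) (𝓝 0) := by
    simpa using continuous_ofReal.tendsto 0
  exact this.eventually h

lemma sqroot {G : ℂ → ℂ} {X : ℝ → ℝ} (hG : AnalyticAt ℂ G 0) (X0 : X 0 = 0)
    (hX : ∀ᶠ t in 𝓝 0, ContinuousAt X t) (e : ∀ᶠ t : ℝ in 𝓝 0, G t = (X t ^ 2 : ℝ)) :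
    ∃ (g : ℂ → ℂ) (σ : ℝ), AnalyticAt ℂ g 0 ∧ g 0 = 0 ∧ (σ = 1 ∨ σ = -1) ∧
      ∀ᶠ t : ℝ in 𝓝 0, (g t).im = 0 ∧ (0 < t → X t = (g t).re) ∧ (t < 0 → X t = σ * (g t).re) := by
  by_cases hz : ∀ᶠ w in 𝓝 (0 : ℂ), G w = 0
  · refine ⟨0, 1, analyticAt_const, rfl, Or.inl rfl, ?_⟩
    filter_upwards [ev_real hz, e] with t h1 h2
    rw [h1] at h2
    have : X t = 0 := by simpa using h2.symm
    simp [this]
  obtain ⟨n, k, hk, k0, hn⟩ := hG.exists_eventuallyEq_pow_smul_nonzero_iff.2 hz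
  simp only [sub_zero, smul_eq_mul] at hn
  have kc : Tendsto (fun t : ℝ => k t) (𝓝 0) (𝓝 (k 0)) :=
    hk.continuousAt.tendsto.comp (by simpa using continuous_ofReal.tendsto 0)
  have e1 : ∀ᶠ t : ℝ in 𝓝 0, t ≠ 0 → k t = (X t ^ 2 / t ^ n : ℝ) := by
    filter_upwards [ev_real hn, e] with t h1 h2 h3
    have : (t : ℂ) ^ n ≠ 0 := pow_ne_zero _ (ofReal_ne_zero.2 h3)
    rw [ofReal_div, ← h2, h1]; push_cast; field_simp
  have i0 : (k 0).im = 0 := by
    refine tendsto_nhds_unique ((continuous_im.tendsto _).comp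
      (kc.mono_left (nhdsWithin_le_nhds (s := Ioi 0)))) (tendsto_const_nhds.congr' ?_)
    filter_upwards [mem_nhdsWithin_of_mem_nhds e1, self_mem_nhdsWithin] with t h1 h2
    simp only [Function.comp, h1 (ne_of_gt h2), ofReal_im]
  have r0 : 0 < (k 0).re := by
    refine lt_of_le_of_ne (ge_of_tendsto ((continuous_re.tendsto _).comp
      (kc.mono_left (nhdsWithin_le_nhds (s := Ioi 0)))) ?_) fun h => k0 (Complex.ext h.symm i0)
    filter_upwards [mem_nhdsWithin_of_mem_nhds e1, self_mem_nhdsWithin] with t h1 h2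
    have : 0 < t := h2
    simp only [Function.comp, h1 (ne_of_gt h2), ofReal_re]; positivity
  have e2 : ∀ᶠ t : ℝ in 𝓝 0, 0 < (k t).re :=
    ((continuous_re.tendsto _).comp kc).eventually (lt_mem_nhds r0)
  have hev : Even n := by
    by_contra ho
    rw [Nat.not_even_iff_odd] at ho
    obtain ⟨t, ⟨h1, h2⟩, h3⟩ := (((e1.and e2).filter_mono
      (nhdsWithin_le_nhds (s := Iio 0))).and self_mem_nhdsWithin).exists
    have h4 : t < 0 := h3
    rw [h1 h4.ne, ofReal_re] at h2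
    exact h2.not_ge (div_nonpos_of_nonneg_of_nonpos (sq_nonneg _) (ho.pow_neg h4).le)
  obtain ⟨m, rfl⟩ := hev
  have m0 : m ≠ 0 := by
    rintro rfl
    have h1 := hn.self_of_nhds
    have h2 := e.self_of_nhds
    simp [X0] at h1 h2
    exact k0 (h1.symm.trans h2)
  set g : ℂ → ℂ := fun w => w ^ m * exp (log (k w) / 2) with hg
  have ga : AnalyticAt ℂ g 0 := (analyticAt_id.pow m).mul
    (((hk.clog (Or.inl r0)).div_const).cexp)
  have g0 : g 0 = 0 := by simp [hg, m0]
  have e3 : ∀ᶠ t : ℝ in 𝓝 0, ContinuousAt X t ∧ ContinuousAt (fun t : ℝ => (g t).re) t ∧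
      (g t).im = 0 ∧ (t ≠ 0 → X t ^ 2 = (g t).re ^ 2 ∧ (g t).re ≠ 0) := by
    filter_upwards [e1, e2, hX, ev_real ga.eventually_analyticAt] with t h1 h2 h3 h4
    refine ⟨h3, continuous_re.continuousAt.comp
      (h4.continuousAt.comp continuous_ofReal.continuousAt), ?_⟩
    by_cases h : t = 0
    · simp [h, g0]
    rw [h1 h, ofReal_re] at h2
    have h5 : g t = (t ^ m * Real.exp (Real.log (X t ^ 2 / t ^ (m + m)) / 2) : ℝ) := by
      simp only [hg]
      rw [h1 h, ← ofReal_log h2.le]; push_cast; rfl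
    rw [h5, ofReal_im, ofReal_re]
    refine ⟨rfl, fun _ => ⟨?_, by positivity⟩⟩
    rw [mul_pow, ← Real.exp_nat_mul, show ((2 : ℕ) : ℝ) * (Real.log (X t ^ 2 / t ^ (m + m)) / 2)
      = Real.log (X t ^ 2 / t ^ (m + m)) by push_cast; ring, Real.exp_log h2]
    field_simp; ring
  obtain ⟨δ, δ0, hδ⟩ := Metric.eventually_nhds_iff.1 e3
  simp only [Real.dist_eq, sub_zero] at hδ
  have key : ∀ S : Set ℝ, IsPreconnected S → (∀ t ∈ S, |t| < δ ∧ t ≠ 0) →
      ∃ ε : ℝ, (ε = 1 ∨ ε = -1) ∧ ∀ t ∈ S, X t = ε * (g t).re := by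
    intro S h1 h2
    rcases h1.eq_or_eq_neg_of_sq_eq (f := X) (g := fun t : ℝ => (g t).re)
      (fun t ht => (hδ (h2 t ht).1).1.continuousWithinAt)
      (fun t ht => (hδ (h2 t ht).1).2.1.continuousWithinAt)
      (fun t ht => ((hδ (h2 t ht).1).2.2.2 (h2 t ht).2).1)
      (fun {t} ht => ((hδ (h2 t ht).1).2.2.2 (h2 t ht).2).2) with h | h
    · exact ⟨1, Or.inl rfl, fun t ht => by simpa using h ht⟩
    · exact ⟨-1, Or.inr rfl, fun t ht => by simpa using h ht⟩
  obtain ⟨ε, a1, a2⟩ := key (Ioo 0 δ) isPreconnected_Ioo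
    (fun t ht => ⟨by rw [abs_of_pos ht.1]; exact ht.2, ht.1.ne'⟩)
  obtain ⟨ε', b1, b2⟩ := key (Ioo (-δ) 0) isPreconnected_Ioo
    (fun t ht => ⟨by rw [abs_of_neg ht.2]; linarith [ht.1], ht.2.ne⟩)
  refine ⟨fun w => ε * g w, ε * ε', analyticAt_const.mul ga, by simp [g0], ?_, ?_⟩
  · rcases a1 with rfl | rfl <;> rcases b1 with rfl | rfl <;> simp
  · filter_upwards [Ioo_mem_nhds (neg_lt_zero.2 δ0) δ0] with t ht
    refine ⟨by simp [(hδ (abs_lt.2 ht)).2.2.1], fun h => by simpa using a2 t ⟨h, ht.2⟩,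
      fun h => ?_⟩
    rw [b2 t ⟨ht.1, h⟩]
    rcases a1 with rfl | rfl <;> simp

noncomputable def ell (w : ℂ) : ℂ := log (-I * w)

lemma ell_slit {w : ℂ} (h : 0 ≤ w.im) (h0 : w ≠ 0) : -I * w ∈ slitPlane := by
  rcases h.lt_or_eq with h | h
  · exact Or.inl (by simpa using h)
  · exact Or.inr (by simpa using fun e => h0 (Complex.ext e h.symm))

lemma ell_deriv {w : ℂ} (h : 0 ≤ w.im) (h0 : w ≠ 0) : HasDerivAt ell w⁻¹ w := by
  refine (((hasDerivAt_id' w).const_mul (-I)).clog (ell_slit h h0)).congr_deriv ?_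
  have := I_ne_zero
  field_simp

lemma ell_re (w : ℂ) : (ell w).re = Real.log ‖w‖ := by simp [ell, log_re]

lemma ell_norm (w : ℂ) : ‖ell w‖ ≤ |Real.log ‖w‖| + Real.pi := by
  refine (norm_le_abs_re_add_abs_im _).trans ?_
  rw [ell_re]
  exact add_le_add le_rfl (by rw [ell, log_im]; exact abs_arg_le_pi _)

lemma ell_tend : Tendsto (fun w => w * ell w) (𝓝 0) (𝓝 0) := by
  have : Continuous fun w : ℂ => |‖w‖ * Real.log ‖w‖| + ‖w‖ * Real.pi :=
    (Real.continuous_mul_log.comp continuous_norm).abs.add (by fun_prop)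
  refine squeeze_zero_norm (fun w => ?_) (by simpa using this.tendsto 0)
  rw [norm_mul, ← mul_add]
  exact mul_le_mul_of_nonneg_left (ell_norm w) (norm_nonneg _)

lemma an_dslope {f : ℂ → ℂ} (h : AnalyticAt ℂ f 0) : AnalyticAt ℂ (dslope f 0) 0 := by
  obtain ⟨p, hp⟩ := h
  exact ⟨_, hp.has_fpower_series_dslope_fslope⟩

lemma mul_dslope {f : ℂ → ℂ} (h : f 0 = 0) (w : ℂ) : f w = w * dslope f 0 w := by
  simpa [h] using (sub_smul_dslope f 0 w).symm

lemma gell_tend {g : ℂ → ℂ} (ga : AnalyticAt ℂ g 0) (g0 : g 0 = 0) :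
    Tendsto (fun w => g w * ell w) (𝓝 0) (𝓝 0) := by
  have := (an_dslope ga).continuousAt.tendsto.mul ell_tend
  rw [mul_zero] at this
  exact this.congr fun w => by rw [mul_dslope g0 w]; ring

lemma struct {Z F : ℂ → ℂ} {r : ℝ} (hr : 0 < r) (Zc : ContinuousOn Z (Hc r))
    (Zd : ∀ w ∈ Hc r, 0 < w.im → DifferentiableAt ℂ Z w) (Fc : ContinuousOn F (Hc r))
    (Fd : ∀ w ∈ Hc r, 0 < w.im → DifferentiableAt ℂ F w) (Z0 : Z 0 = 0)
    (e : ∀ t : ℝ, |t| < r → F t = ((Z t).re ^ 2 : ℝ)) :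
    ∃ (A B : ℂ → ℂ) (δ : ℝ), AnalyticAt ℂ A 0 ∧ AnalyticAt ℂ B 0 ∧ A 0 = 0 ∧ B 0 = 0 ∧ 0 < δ ∧
      ∀ w ∈ Hc δ, Z w = A w + B w * ell w := by
  obtain ⟨G, hG, eG⟩ := reflect hr Fc Fd (fun t ht => by rw [e t ht, ofReal_im])
  have hI : ∀ᶠ t : ℝ in 𝓝 0, |t| < r := by
    filter_upwards [Ioo_mem_nhds (neg_lt_zero.2 hr) hr] with t ht using abs_lt.2 ht
  obtain ⟨g, σ, ga, g0, hσ, hg⟩ := sqroot (X := fun t => (Z t).re) hG (by simp [Z0]) (by
    filter_upwards [hI.eventually_nhds] with t ht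
    refine continuous_re.continuousAt.comp ((Zc.comp continuous_ofReal.continuousOn
      (s := {t | |t| < r}) fun t ht => real_Hc ht).continuousAt ht)) (by
    filter_upwards [hI] with t ht
    rw [eG (real_Hc ht), e t ht])
  obtain ⟨δ1, δ10, h1⟩ := Metric.eventually_nhds_iff.1 hg
  obtain ⟨δ2, δ20, h2⟩ := Metric.eventually_nhds_iff.1 ga.eventually_analyticAt
  simp only [Real.dist_eq, sub_zero] at h1
  simp only [dist_zero_right] at h2
  set δ := min r (min δ1 δ2)
  have δ0 : 0 < δ := by positivity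
  have l1 : δ ≤ r := min_le_left _ _
  have l2 : δ ≤ δ1 := (min_le_right _ _).trans (min_le_left _ _)
  have l3 : δ ≤ δ2 := (min_le_right _ _).trans (min_le_right _ _)
  obtain ⟨c1, c2, hc⟩ : ∃ c1 c2 : ℂ, ∀ t : ℝ, |t| < δ →
      (c1 * g t + c2 * (g t * ell t)).re = (Z t).re := by
    rcases hσ with rfl | rfl
    · refine ⟨1, 0, fun t ht => ?_⟩
      obtain ⟨-, a2, a3⟩ := h1 (ht.trans_le l2)
      rcases lt_trichotomy t 0 with h | rfl | h
      · simpa using (a3 h).symm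
      · simp [g0, Z0]
      · simpa using (a2 h).symm
    · refine ⟨0, (2 / Real.pi : ℝ) * I, fun t ht => ?_⟩
      obtain ⟨a1, a2, a3⟩ := h1 (ht.trans_le l2)
      have hp := Real.pi_pos
      have e1 : (0 * g t + (2 / Real.pi : ℝ) * I * (g t * ell t)).re
          = -(2 / Real.pi) * ((g t).re * (ell t).im) := by
        simp only [zero_mul, zero_add, mul_re, mul_im, ofReal_re, ofReal_im, I_re, I_im, a1]; ring
      rw [e1]
      rcases lt_trichotomy t 0 with h | rfl | h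
      · have : (ell t).im = Real.pi / 2 := by
          rw [ell, log_im, arg_eq_pi_div_two_iff]; simpa using h
        rw [this, a3 h]; field_simp
      · simp [g0, Z0]
      · have : (ell t).im = -(Real.pi / 2) := by
          rw [ell, log_im, arg_eq_neg_pi_div_two_iff]; simpa using h
        rw [this, a2 h]; field_simp
  have gl : ContinuousOn (fun w => g w * ell w) (Hc δ) := by
    intro w hw
    by_cases h : w = 0
    · subst h
      refine ContinuousAt.continuousWithinAt ?_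
      simpa [ContinuousAt, g0] using gell_tend ga g0
    · exact ((h2 (hw.1.trans_le l3)).continuousAt.mul
        (ell_deriv hw.2 h).continuousAt).continuousWithinAt
  have gc : ContinuousOn g (Hc δ) := fun w hw =>
    (h2 (hw.1.trans_le l3)).continuousAt.continuousWithinAt
  obtain ⟨K, hK, eK⟩ := reflect (F := fun w => I * (Z w - (c1 * g w + c2 * (g w * ell w)))) δ0
    (continuousOn_const.mul ((Zc.mono (Hc_mono l1)).sub
      ((continuousOn_const.mul gc).add (continuousOn_const.mul gl)))) (fun w hw h => by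
      have a1 := (h2 (hw.1.trans_le l3)).differentiableAt
      have a2 := (ell_deriv hw.2 (fun e => by simp [e] at h)).differentiableAt
      exact ((Zd w (Hc_mono l1 hw) h).sub
        ((a1.const_mul c1).add ((a1.mul a2).const_mul c2))).const_mul I) (fun t ht => by
      rw [I_mul_im, sub_re, hc t ht, sub_self])
  refine ⟨fun w => c1 * g w - I * K w, fun w => c2 * g w, δ,
    (analyticAt_const.mul ga).sub (analyticAt_const.mul hK), analyticAt_const.mul ga, ?_,
    by simp [g0], δ0, fun w hw => ?_⟩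
  · have := eK (x := 0) ⟨by simpa using δ0, by simp⟩
    simp [this, g0, Z0]
  · simp only [eK hw]
    linear_combination (Z w - (c1 * g w + c2 * (g w * ell w))) * I_mul_I

lemma dir {Z A B : ℂ → ℂ} {δ c α : ℝ} (hA : AnalyticAt ℂ A 0) (hB : AnalyticAt ℂ B 0)
    (A0 : A 0 = 0) (B0 : B 0 = 0) (δ0 : 0 < δ) (e : ∀ w ∈ Hc δ, Z w = A w + B w * ell w)
    (c0 : 0 < c) (hα : 1 / 2 < α) (hl : ∀ᶠ τ : ℝ in 𝓝[>] 0, c * τ ≤ ‖Z (τ * I)‖ ^ α) :
    ∃ (e : ℂ) (lam : ℝ → ℝ) (Z' : ℝ → ℂ), e ≠ 0 ∧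
      (∀ᶠ t : ℝ in 𝓝[≠] 0, HasDerivAt (fun t : ℝ => Z t) (Z' t) t ∧ ContinuousAt Z' t ∧ 0 < lam t) ∧
      Tendsto (fun t => Z' t / lam t) (𝓝[≠] 0) (𝓝 e) := by
  set Z' : ℝ → ℂ := fun t => deriv A t + (deriv B t * ell t + B t * (t : ℂ)⁻¹) with hZ'
  have hI : ∀ᶠ t : ℝ in 𝓝 0, |t| < δ := by
    filter_upwards [Ioo_mem_nhds (neg_lt_zero.2 δ0) δ0] with t ht using abs_lt.2 ht
  have hD : ∀ᶠ t : ℝ in 𝓝[≠] 0, HasDerivAt (fun t : ℝ => Z t) (Z' t) t ∧ ContinuousAt Z' t := by
    filter_upwards [self_mem_nhdsWithin, mem_nhdsWithin_of_mem_nhds (hI.eventually_nhds.and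
      ((ev_real hA.eventually_analyticAt).and (ev_real hB.eventually_analyticAt)))]
      with t h0 ⟨h1, h2, h3⟩
    have t0 : (t : ℂ) ≠ 0 := ofReal_ne_zero.2 h0
    have hl := ell_deriv (w := t) (by simp) t0
    constructor
    · refine (h2.differentiableAt.hasDerivAt.add
        (h3.differentiableAt.hasDerivAt.mul hl)).comp_ofReal.congr_of_eventuallyEq ?_
      filter_upwards [h1] with s hs using e _ (real_Hc hs)
    · exact ContinuousAt.comp (g := fun w => deriv A w + (deriv B w * ell w + B w * w⁻¹))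
        (h2.deriv.continuousAt.add ((h3.deriv.continuousAt.mul hl.continuousAt).add
          (h3.continuousAt.mul (continuousAt_inv₀ t0)))) continuous_ofReal.continuousAt
  have hT : Tendsto (fun t : ℝ => (t : ℂ)) (𝓝[≠] 0) (𝓝 0) := by
    simpa using (continuous_ofReal.tendsto 0).mono_left nhdsWithin_le_nhds
  have t1 := hA.deriv.continuousAt.tendsto.comp hT
  have t2 := hB.deriv.continuousAt.tendsto.comp hT
  have t3 : Tendsto (fun t : ℝ => B t * (t : ℂ)⁻¹) (𝓝[≠] 0) (𝓝 (deriv B 0)) := by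
    have := (an_dslope hB).continuousAt.tendsto.comp hT
    rw [dslope_same] at this
    refine this.congr' ?_
    filter_upwards [self_mem_nhdsWithin] with t h0
    have t0 : (t : ℂ) ≠ 0 := ofReal_ne_zero.2 h0
    simp only [Function.comp]
    rw [mul_dslope B0 t]; field_simp
  by_cases hb : deriv B 0 = 0
  · refine ⟨deriv A 0, fun _ => 1, Z', fun ha => ?_, hD.mono fun t h => ⟨h.1, h.2, one_pos⟩, ?_⟩
    · have a2 := an_dslope (an_dslope hA)
      have b2 := an_dslope (an_dslope hB)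
      have eA : ∀ w, A w = w * (w * dslope (dslope A 0) 0 w) := fun w => by
        rw [← mul_dslope (by rwa [dslope_same]) w, ← mul_dslope A0 w]
      have eB : ∀ w, B w = w * (w * dslope (dslope B 0) 0 w) := fun w => by
        rw [← mul_dslope (by rwa [dslope_same]) w, ← mul_dslope B0 w]
      have α0 : 0 < α := by linarith
      obtain ⟨μ, m1, m2⟩ : ∃ μ : ℝ, α⁻¹ < μ ∧ μ < 2 :=
        exists_between (by rw [inv_lt_comm₀ α0 two_pos]; linarith)
      have hS : Tendsto (fun τ : ℝ => (τ : ℂ) * I) (𝓝[>] 0) (𝓝 0) := by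
        have : Continuous fun τ : ℝ => (τ : ℂ) * I := by fun_prop
        simpa using (this.tendsto 0).mono_left nhdsWithin_le_nhds
      have p1 : ∀ x : ℝ, 0 < x → Tendsto (fun τ : ℝ => τ ^ x) (𝓝[>] 0) (𝓝 0) := fun x hx => by
        simpa [Real.zero_rpow hx.ne'] using
          (Real.continuousAt_rpow_const 0 x (Or.inr hx.le)).tendsto.mono_left nhdsWithin_le_nhds
      have p2 := ((a2.continuousAt.tendsto.comp hS).norm.mul (p1 (2 - μ) (by linarith))).add
        ((b2.continuousAt.tendsto.comp hS).norm.mul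
          (tendsto_log_mul_rpow_nhdsGT_zero (r := 2 - μ) (by linarith)).abs)
      simp only [mul_zero, abs_zero, add_zero] at p2
      have p3 := p1 (μ * α - 1) (by
        have := mul_lt_mul_of_pos_right m1 α0
        rw [inv_mul_cancel₀ α0.ne'] at this; linarith)
      obtain ⟨τ, ⟨⟨⟨q1, q2⟩, q3⟩, q4⟩⟩ := (((hl.and (p2.eventually (gt_mem_nhds one_pos))).and
        (p3.eventually (gt_mem_nhds c0))).and (Ioo_mem_nhdsGT δ0)).exists
      have τ0 : 0 < τ := q4.1
      have n1 : ‖(τ : ℂ) * I‖ = τ := by simp [τ0.le]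
      have q5 : ‖Z (τ * I)‖ ≤ τ ^ μ := by
        rw [e _ ⟨by rw [n1]; exact q4.2, by simpa using τ0.le⟩, eA, eB]
        have e1 : ell (τ * I) = Real.log τ := by
          rw [ell, ofReal_log τ0.le]; congr 1; linear_combination (-τ : ℂ) * I_mul_I
        have e2 : τ * τ = τ ^ μ * τ ^ (2 - μ) := by
          rw [← Real.rpow_add τ0]; simp [sq]
        refine (norm_add_le _ _).trans ?_
        simp only [norm_mul, e1, norm_real, norm_I, mul_one, Real.norm_eq_abs, abs_of_pos τ0]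
        simp only [Function.comp, abs_mul, abs_of_pos (Real.rpow_pos_of_pos τ0 (2 - μ))] at q2
        have := mul_le_mul_of_nonneg_left q2.le (Real.rpow_pos_of_pos τ0 μ).le
        rw [← mul_assoc, ← mul_assoc, e2]
        linarith
      have q6 := q1.trans (Real.rpow_le_rpow (norm_nonneg _) q5 α0.le)
      rw [← Real.rpow_mul τ0.le, show μ * α = μ * α - 1 + 1 by ring, Real.rpow_add τ0,
        Real.rpow_one] at q6
      exact (mul_lt_mul_of_pos_right q3 τ0).not_ge q6
    · have := t1.add (((gell_tend hB.deriv hb).comp hT).add t3)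
      simpa [hb, hZ', Function.comp_def] using this
  · have hlog : Tendsto (fun t : ℝ => -Real.log t) (𝓝[≠] 0) atTop :=
      tendsto_neg_atBot_atTop.comp Real.tendsto_log_nhdsNE_zero
    have t4 : Tendsto (fun t : ℝ => ((-Real.log t : ℝ) : ℂ)⁻¹) (𝓝[≠] 0) (𝓝 0) := by
      simpa [Function.comp_def] using (continuous_ofReal.tendsto 0).comp hlog.inv_tendsto_atTop
    have t5 : Tendsto (fun t : ℝ => ell t / ((-Real.log t : ℝ) : ℂ) + 1) (𝓝[≠] 0) (𝓝 0) := by
      have t6 := t4.norm.const_mul Real.pi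
      rw [norm_zero, mul_zero] at t6
      refine squeeze_zero_norm' ?_ t6
      filter_upwards [hlog.eventually_gt_atTop 0] with t ht
      have h0 : ((-Real.log t : ℝ) : ℂ) ≠ 0 := ofReal_ne_zero.2 ht.ne'
      have e1 : ell t / ((-Real.log t : ℝ) : ℂ) + 1
          = (ell t).im * I * ((-Real.log t : ℝ) : ℂ)⁻¹ := by
        rw [div_add_one h0, div_eq_mul_inv]; congr 1
        apply Complex.ext <;> simp [ell_re]
      rw [e1, norm_mul, norm_mul, norm_I, mul_one, norm_real, Real.norm_eq_abs]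
      exact mul_le_mul_of_nonneg_right (by rw [ell, log_im]; exact abs_arg_le_pi _) (norm_nonneg _)
    refine ⟨-deriv B 0, fun t => -Real.log t, Z', neg_ne_zero.2 hb,
      (hD.and (hlog.eventually_gt_atTop 0)).mono fun t h => ⟨h.1.1, h.1.2, h.2⟩, ?_⟩
    have := ((t1.add t3).mul t4).add (t2.mul (t5.sub_const 1))
    simp only [mul_zero, zero_add, zero_sub, mul_neg, mul_one] at this
    refine this.congr fun t => ?_
    simp only [hZ', Function.comp]; ring

lemma curve {f s y s' y' : ℝ → ℝ} {m : ℝ} (fc : Continuous f) (sc : ContinuousAt s 0)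
    (s0 : s 0 = 0) (hd : ∀ᶠ t in 𝓝[≠] 0, HasDerivAt s (s' t) t ∧ HasDerivAt y (y' t) t ∧
      ContinuousAt s' t ∧ ContinuousAt y' t ∧ 0 < s' t) (he : ∀ᶠ t in 𝓝 0, y t = f (s t))
    (hm : Tendsto (fun t => y' t / s' t) (𝓝[≠] 0) (𝓝 m)) : ContDiffAt ℝ 1 f 0 := by
  classical
  obtain ⟨δ', δ0', hδ⟩ := Metric.eventually_nhds_iff.1 ((eventually_nhdsWithin_iff.1 hd).and he)
  simp only [Real.dist_eq, sub_zero, mem_compl_iff, mem_singleton_iff] at hδ
  set δ := δ' / 2
  have δ0 : 0 < δ := by positivity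
  have hI : ∀ t ∈ Icc (-δ) δ, |t| < δ' := fun t ht =>
    (abs_le.2 ht).trans_lt (half_lt_self δ0')
  have c1 : ∀ t ∈ Icc (-δ) δ, ContinuousAt s t := fun t ht => by
    by_cases h : t = 0
    · rwa [h]
    · exact ((hδ (hI t ht)).1 h).1.continuousAt
  have sm : StrictMonoOn s (Icc (-δ) δ) := by
    have key : ∀ a b, -δ ≤ a → b ≤ δ → 0 ∉ Ioo a b → StrictMonoOn s (Icc a b) := by
      intro a b ha hb h0
      refine strictMonoOn_of_deriv_pos (convex_Icc _ _)
        (fun t ht => (c1 t (Icc_subset_Icc ha hb ht)).continuousWithinAt) fun t ht => ?_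
      rw [interior_Icc] at ht
      have := (hδ (hI t (Icc_subset_Icc ha hb (Ioo_subset_Icc_self ht)))).1 fun e => h0 (e ▸ ht)
      rw [this.1.deriv]; exact this.2.2.2.2
    rw [← Icc_union_Icc_eq_Icc (neg_nonpos.2 δ0.le) δ0.le]
    exact (key _ 0 le_rfl δ0.le (by simp)).union (key 0 _ (by linarith) le_rfl (by simp))
      (isGreatest_Icc (by linarith)) (isLeast_Icc δ0.le)
  set J := Ioo (-δ) δ
  have JI : J ⊆ Icc (-δ) δ := Ioo_subset_Icc_self
  have J0 : (0 : ℝ) ∈ J := ⟨by linarith, δ0⟩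
  have mp : ∀ t ∈ J, 𝓝 (s t) ≤ map s (𝓝 t) := by
    intro t ht N hN
    obtain ⟨a, b, -, hab, hs⟩ := exists_Icc_mem_subset_of_mem_nhds
      (inter_mem (mem_map.1 hN) (Icc_mem_nhds ht.1 ht.2))
    rw [Icc_mem_nhds_iff] at hab
    have l := hab.1.le.trans hab.2.le
    refine mem_of_superset (Ioo_mem_nhds (sm (hs (left_mem_Icc.2 l)).2 (JI ht) hab.1)
      (sm (JI ht) (hs (right_mem_Icc.2 l)).2 hab.2)) fun x hx => ?_
    obtain ⟨u, hu, rfl⟩ := intermediate_value_Ioo l
      (fun t ht => (c1 t (hs ht).2).continuousWithinAt) hx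
    exact (hs (Ioo_subset_Icc_self hu)).1
  have ij : InjOn s J := sm.injOn.mono JI
  set σ := Function.invFunOn s J
  have li : ∀ t ∈ J, σ (s t) = t := fun t ht => ij.leftInvOn_invFunOn ht
  have Jn : ∀ t ∈ J, J ∈ 𝓝 t := fun t ht => isOpen_Ioo.mem_nhds ht
  have Vn : ∀ t ∈ J, s '' J ∈ 𝓝 (s t) := fun t ht => mp t ht (image_mem_map (Jn t ht))
  have σc : ∀ t ∈ J, ContinuousAt σ (s t) := fun t ht => by
    rw [ContinuousAt, li t ht]
    refine Tendsto.mono_left (tendsto_map'_iff.2 (tendsto_id.congr' ?_)) (mp t ht)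
    filter_upwards [Jn t ht] with u hu using (li u hu).symm
  set D : ℝ → ℝ := Function.update (fun t => y' t / s' t) 0 m with hD
  have Dc : ∀ t ∈ J, ContinuousAt D t := fun t ht => by
    by_cases h : t = 0
    · rw [h]; exact continuousAt_update_same.2 hm
    · obtain ⟨-, -, a3, a4, a5⟩ := (hδ (hI t (JI ht))).1 h
      exact (continuousAt_update_of_ne h).2 (a4.div a3 a5.ne')
  have E1 : ∀ t ∈ J, ContinuousAt (D ∘ σ) (s t) := fun t ht =>
    ContinuousAt.comp (by rw [li t ht]; exact Dc t ht) (σc t ht)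
  have d1 : ∀ x ∈ s '' J, x ≠ 0 → HasDerivAt f (D (σ x)) x := by
    rintro _ ⟨t, ht, rfl⟩ hx
    have h : t ≠ 0 := fun e => hx (by rw [e, s0])
    obtain ⟨a1, a2, -, -, a5⟩ := (hδ (hI t (JI ht))).1 h
    have b1 : HasDerivAt σ (s' t)⁻¹ (s t) := HasDerivAt.of_local_left_inverse (σc t ht)
      (by rwa [li t ht]) a5.ne' (by
        filter_upwards [Vn t ht] with x hx using Function.invFunOn_eq hx)
    rw [li t ht, hD, Function.update_of_ne h]
    refine (HasDerivAt.comp_of_eq _ a2 b1 (li t ht).symm).congr_of_eventuallyEq ?_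
    filter_upwards [Vn t ht]
    rintro _ ⟨u, hu, rfl⟩
    simp only [Function.comp, li u hu]
    exact (hδ (hI u (JI hu))).2.symm
  have V0 : s '' J ∈ 𝓝 (0 : ℝ) := s0 ▸ Vn 0 J0
  have d0 : HasDerivAt f (D (σ 0)) 0 := by
    have a1 : DifferentiableOn ℝ f (s '' J ∩ {0}ᶜ) := fun x hx =>
      (d1 x hx.1 hx.2).differentiableAt.differentiableWithinAt
    have a2 : s '' J ∩ {0}ᶜ ∈ 𝓝[≠] (0 : ℝ) :=
      inter_mem (mem_nhdsWithin_of_mem_nhds V0) self_mem_nhdsWithin
    have a3 : Tendsto (fun x => deriv f x) (𝓝[≠] 0) (𝓝 (D (σ 0))) := by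
      have := E1 0 J0
      rw [s0] at this
      refine (this.tendsto.mono_left nhdsWithin_le_nhds).congr' ?_
      filter_upwards [a2] with x hx using (d1 x hx.1 hx.2).deriv.symm
    have a4 := (hasDerivWithinAt_Iic_of_tendsto_deriv a1 fc.continuousWithinAt
      (nhdsLT_le_nhdsNE 0 a2) (a3.mono_left (nhdsLT_le_nhdsNE 0))).union
      (hasDerivWithinAt_Ici_of_tendsto_deriv a1 fc.continuousWithinAt
      (nhdsGT_le_nhdsNE 0 a2) (a3.mono_left (nhdsGT_le_nhdsNE 0)))
    rwa [Iic_union_Ici, hasDerivWithinAt_univ] at a4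
  have d2 : ∀ x ∈ s '' J, HasDerivAt f (D (σ x)) x := fun x hx => by
    by_cases h : x = 0
    · rw [h]; exact d0
    · exact d1 x hx h
  have Vo : IsOpen (s '' J) := isOpen_iff_mem_nhds.2 (by
    rintro _ ⟨t, ht, rfl⟩; exact Vn t ht)
  refine ContDiffOn.contDiffAt ?_ V0
  rw [show (1 : WithTop ℕ∞) = 0 + 1 from rfl, contDiffOn_succ_iff_deriv_of_isOpen Vo]
  refine ⟨fun x hx => (d2 x hx).differentiableAt.differentiableWithinAt, by simp, ?_⟩
  rw [contDiffOn_zero]
  refine ContinuousOn.congr (f := D ∘ σ) ?_ fun x hx => (d2 x hx).deriv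
  rintro _ ⟨t, ht, rfl⟩
  exact (E1 t ht).continuousWithinAt

lemma curve2 {f : ℝ → ℝ} {L : NNReal} (fL : LipschitzWith L f) {γ γ' : ℝ → ℂ} {lam : ℝ → ℝ} {e : ℂ}
    (e0 : e ≠ 0) (γc : ContinuousAt γ 0) (γ0 : γ 0 = 0)
    (hd : ∀ᶠ t in 𝓝[≠] 0, HasDerivAt γ (γ' t) t ∧ ContinuousAt γ' t ∧ 0 < lam t)
    (he : ∀ᶠ t in 𝓝 0, (γ t).im = f (γ t).re)
    (hm : Tendsto (fun t => γ' t / lam t) (𝓝[≠] 0) (𝓝 e)) : ContDiffAt ℝ 1 f 0 := by
  have dr : ∀ {γ : ℝ → ℂ} {a : ℂ} {t : ℝ}, HasDerivAt γ a t →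
      HasDerivAt (fun t => (γ t).re) a.re t := fun h => reCLM.hasFDerivAt.comp_hasDerivAt _ h
  have di : ∀ {γ : ℝ → ℂ} {a : ℂ} {t : ℝ}, HasDerivAt γ a t →
      HasDerivAt (fun t => (γ t).im) a.im t := fun h => imCLM.hasFDerivAt.comp_hasDerivAt _ h
  have r0 : e.re ≠ 0 := by
    intro h
    have a1 : |e.im| ≤ L * |e.re| := by
      refine le_of_tendsto_of_tendsto ((continuous_im.tendsto _).comp hm).abs
        (((continuous_re.tendsto _).comp hm).abs.const_mul (L : ℝ)) ?_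
      filter_upwards [hd, mem_nhdsWithin_of_mem_nhds he.eventually_nhds] with t h1 h2
      have b1 : |(γ' t).im| ≤ L * |(γ' t).re| := by
        refine le_of_tendsto_of_tendsto (hasDerivAt_iff_tendsto_slope.1 (di h1.1)).abs
          ((hasDerivAt_iff_tendsto_slope.1 (dr h1.1)).abs.const_mul (L : ℝ)) ?_
        filter_upwards [mem_nhdsWithin_of_mem_nhds h2] with u h3
        have h4 : (γ t).im = f (γ t).re := h2.self_of_nhds
        simp only [slope_def_field, abs_div, h3, h4]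
        rw [← mul_div_assoc]
        exact div_le_div_of_nonneg_right (fL.dist_le_mul _ _) (abs_nonneg _)
      simp only [Function.comp, div_ofReal_im, div_ofReal_re, abs_div]
      rw [← mul_div_assoc]
      exact div_le_div_of_nonneg_right b1 (abs_nonneg _)
    rw [h, abs_zero, mul_zero] at a1
    exact e0 (Complex.ext h (abs_nonpos_iff.1 a1))
  wlog hp : 0 < e.re generalizing γ γ' lam e
  · have n : Tendsto (fun t : ℝ => -t) (𝓝[≠] 0) (𝓝[≠] 0) :=
      tendsto_nhdsWithin_iff.2 ⟨by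
        simpa using (continuous_neg.tendsto (0 : ℝ)).mono_left nhdsWithin_le_nhds,
        eventually_mem_nhdsWithin.mono fun t ht => by simpa using ht⟩
    refine this (γ := fun t => γ (-t)) (γ' := fun t => -γ' (-t)) (lam := fun t => lam (-t))
      (neg_ne_zero.2 e0) (ContinuousAt.comp (by simpa using γc) continuous_neg.continuousAt)
      (by simpa using γ0) ((n.eventually hd).mono fun t h => ⟨?_,
        (h.2.1.comp continuous_neg.continuousAt).neg, h.2.2⟩)
      ((show Tendsto (fun t : ℝ => -t) (𝓝 0) (𝓝 0) by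
        simpa using continuous_neg.tendsto (0 : ℝ)).eventually he)
      (by simpa [neg_div, Function.comp_def] using (hm.comp n).neg) (by simpa using r0)
      (by simpa using lt_of_le_of_ne (not_lt.1 hp) r0)
    simpa [Function.comp_def] using h.1.scomp t (hasDerivAt_neg t)
  have t1 := (continuous_re.tendsto _).comp hm
  have t2 := (continuous_im.tendsto _).comp hm
  refine curve (s := fun t => (γ t).re) (y := fun t => (γ t).im) (s' := fun t => (γ' t).re)
    (y' := fun t => (γ' t).im) (m := e.im / e.re) fL.continuous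
    (continuous_re.continuousAt.comp γc) (by simp [γ0]) ?_ he ((t2.div t1 r0).congr' ?_)
  · filter_upwards [hd, t1.eventually (lt_mem_nhds hp)] with t h1 h2
    refine ⟨dr h1.1, di h1.1, continuous_re.continuousAt.comp h1.2.1,
      continuous_im.continuousAt.comp h1.2.1, ?_⟩
    simp only [Function.comp, div_ofReal_re] at h2
    exact (div_pos_iff_of_pos_right h1.2.2).1 h2
  · filter_upwards [hd] with t h1
    simp only [Function.comp, div_ofReal_re, div_ofReal_im, Pi.div_apply]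
    rw [div_div_div_cancel_right₀ h1.2.2.ne']

lemma globalize {f : ℝ → ℝ} (h : ContDiffAt ℝ 1 f 0) :
    ∃ g : ℝ → ℝ, ContDiff ℝ 1 g ∧ ∀ᶠ x in 𝓝 0, g x = f x := by
  obtain ⟨r, r0, hr⟩ := Metric.eventually_nhds_iff_ball.1 (h.eventually (by simp))
  let b : ContDiffBump (0 : ℝ) := ⟨r / 4, r / 2, by positivity, by linarith⟩
  refine ⟨fun x => b x * f x, contDiff_iff_contDiffAt.2 fun x => ?_, ?_⟩
  · by_cases hx : x ∈ ball (0 : ℝ) r
    · exact b.contDiff.contDiffAt.mul (hr x hx)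
    · have : x ∉ tsupport b := by
        rw [b.tsupport_eq]
        exact fun h => hx (closedBall_subset_ball (half_lt_self r0) h)
      refine (contDiffAt_const (c := 0)).congr_of_eventuallyEq ?_
      filter_upwards [notMem_tsupport_iff_eventuallyEq.1 this] with z hz
      simp [hz]
  · filter_upwards [b.eventuallyEq_one] with x hx
    simp [hx]

end Pool.Agent.H.MP_354547_an
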