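import Pool.Agent.H.MP_354547_an.B

open Set Filter Metric Complex Topology ComplexConjugate
open Pool.Agent.Lib.helper9.RMT

namespace Pool.Agent.H.MP_354547_an

def Om (f : ℝ → ℝ) (ρ h : ℝ) : Set ℂ := {y | |y.re| < ρ ∧ ‖y - h * I‖ < 2 * h ∧ f y.re < y.im}

lemma Om_star {f : ℝ → ℝ} {L : NNReal} (fL : LipschitzWith L f) (f0 : f 0 = 0) {ρ h : ℝ}
    (hh : h = (3 * L + 1) * ρ) {y b : ℂ} (hy : y ∈ Om f ρ h) (hb : ‖b - h * I‖ < ρ) {s : ℝ}
    (s0 : 0 ≤ s) (s1 : s ≤ 1) : ((1 - s : ℝ) : ℂ) * y + s * b ∈ Om f ρ h := by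
  obtain ⟨y1, y2, y3⟩ := hy
  have ρ0 : 0 < ρ := (abs_nonneg _).trans_lt y1
  have L0 : (0 : ℝ) ≤ L := L.2
  have b1 : |b.re| < ρ := by simpa using (abs_re_le_norm (b - h * I)).trans_lt hb
  have b2 : |b.im - h| < ρ := by simpa using (abs_im_le_norm (b - h * I)).trans_lt hb
  have cv : ∀ {u v c : ℝ}, u < c → v < c → (1 - s) * u + s * v < c := fun {u v c} h1 h2 => by
    rcases s0.lt_or_eq with h | h
    · nlinarith
    · simp [← h, h1]
  have er : (((1 - s : ℝ) : ℂ) * y + s * b).re = (1 - s) * y.re + s * b.re := by simp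
  have ei : (((1 - s : ℝ) : ℂ) * y + s * b).im = (1 - s) * y.im + s * b.im := by simp
  refine ⟨?_, ?_, ?_⟩
  · rw [er, abs_lt]
    rw [abs_lt] at y1 b1
    exact ⟨by linarith [cv (neg_lt.1 y1.1) (neg_lt.1 b1.1)], cv y1.2 b1.2⟩
  · rw [show ((1 - s : ℝ) : ℂ) * y + s * b - h * I
      = ((1 - s : ℝ) : ℂ) * (y - h * I) + s * (b - h * I) by push_cast; ring]
    refine (norm_add_le _ _).trans_lt ?_
    rw [norm_mul, norm_mul, norm_real, norm_real, Real.norm_of_nonneg s0,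
      Real.norm_of_nonneg (by linarith)]
    exact cv y2 (by nlinarith)
  · rw [er, ei]
    have a1 := fL.dist_le_mul ((1 - s) * y.re + s * b.re) y.re
    have a2 := fL.dist_le_mul y.re 0
    rw [Real.dist_eq, Real.dist_eq] at a1 a2
    rw [show (1 - s) * y.re + s * b.re - y.re = s * (b.re - y.re) by ring, abs_mul,
      abs_of_nonneg s0] at a1
    rw [f0, sub_zero, sub_zero] at a2
    have a3 : |b.re - y.re| ≤ 2 * ρ := by linarith [abs_sub b.re y.re]
    have a4 : L * (s * |b.re - y.re|) ≤ L * (s * (2 * ρ)) := by gcongr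
    have a5 : L * |y.re| ≤ L * ρ := by gcongr
    have a6 := cv (c := -f y.re) (u := -y.im) (v := -(b.im - 2 * L * ρ)) (by linarith)
      (by linarith [(abs_lt.1 b2).1, (abs_le.1 a2).2])
    linarith [(abs_le.1 a1).2]

theorem cx {f : ℝ → ℝ} {L : NNReal} (fL : LipschitzWith L f) (f0 : f 0 = 0) {H : ℂ → ℂ} {r : ℝ}
    (hr : 0 < r) {a : ℂ} (ha : ‖a‖ = 1) (Hcn : ContinuousOn H (ball 0 r))
    (Hd : ∀ y ∈ ball (0 : ℂ) r, f y.re < y.im → DifferentiableAt ℂ H y)
    (Hb : ∀ y ∈ ball (0 : ℂ) r, y.im = f y.re → H y = ((a * y).re ^ 2 : ℝ)) :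
    ContDiffAt ℝ 1 f 0 := by
  have L0 : (0 : ℝ) ≤ L := L.2
  set h := r / 3 with hh
  set ρ := h / (3 * L + 1) with hρ
  have h0 : 0 < h := by positivity
  have ρ0 : 0 < ρ := by positivity
  have eh : h = (3 * L + 1) * ρ := by rw [hρ]; field_simp
  have ρh : ρ ≤ h := by nlinarith
  set Ω := Om f ρ h with hΩ
  have nh : ‖(h : ℂ) * I‖ = h := by simp [h0.le]
  have Ωo : IsOpen Ω := (isOpen_lt continuous_re.abs continuous_const).inter
    ((isOpen_lt (continuous_id.sub continuous_const).norm continuous_const).inter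
      (isOpen_lt (fL.continuous.comp continuous_re) continuous_im))
  have pΩ : (h : ℂ) * I ∈ Ω := ⟨by simpa using ρ0, by simpa using h0, by simpa [f0] using h0⟩
  have Ωb : Ω ⊆ ball (h * I) (2 * h) := fun y hy => mem_ball_iff_norm.2 hy.2.1
  have Ωr : Ω ⊆ ball 0 r := fun y hy => by
    rw [mem_ball_zero_iff]
    linarith [norm_sub_norm_le y (h * I), hy.2.1]
  have Ωs : StarConvex ℝ ((h : ℂ) * I) Ω := by
    intro y hy u v hu hv huv
    have := Om_star fL f0 eh hy (b := h * I) (by simpa using ρ0) hu (by linarith)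
    rwa [show 1 - u = v by linarith, add_comm] at this
  have : ContractibleSpace Ω := Ωs.contractibleSpace ⟨_, pΩ⟩
  obtain ⟨ψ, φ, hc⟩ := rmt_bounded Ωo (SimplyConnectedSpace.ofContractible Ω)
    (isBounded_ball.subset Ωb) pΩ
  have τ0 : 0 < ρ / (2 * h) := by positivity
  have sp : ∀ η : ℂ, ‖η‖ = ρ / (2 * h) → ∀ y ∈ Ω, ∀ s : ℝ, 0 < s → s < 1 →
      y - s * ((1 + η) * (y - h * I)) ∈ Ω := by
    intro η hη y hy s s0 s1
    have := Om_star fL f0 eh hy (b := h * I - η * (y - h * I)) (by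
      rw [sub_sub_cancel_left, norm_neg, norm_mul, hη, div_mul_eq_mul_div,
        div_lt_iff₀ (by positivity)]
      exact mul_lt_mul_of_pos_left hy.2.1 ρ0) s0.le s1.le
    rwa [show ((1 - s : ℝ) : ℂ) * y + s * (h * I - η * (y - h * I))
      = y - s * ((1 + η) * (y - h * I)) by push_cast; ring] at this
  have nτ : ‖((ρ / (2 * h) : ℝ) : ℂ) * I‖ = ρ / (2 * h) := by
    rw [norm_mul, norm_I, mul_one, norm_real, Real.norm_of_nonneg τ0.le]
  obtain ⟨Φ, Φc, Φe⟩ := star_ext hc Ωo pΩ Ωb τ0 (sp _ nτ) (fun y hy s s0 s1 => by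
    rw [sub_eq_add_neg 1]; exact sp _ (by rwa [norm_neg]) y hy s s0 s1)
  have cl : closure (ball (0 : ℂ) 1) = closedBall 0 1 := closure_ball _ one_ne_zero
  have Φcl : ∀ ζ ∈ closedBall (0 : ℂ) 1, Φ ζ ∈ closure Ω := fun ζ hζ =>
    ((Φc ζ hζ).mono ball_subset_closedBall).mem_closure (cl ▸ hζ)
      fun w hw => by rw [Φe hw]; exact hc.mφ hw
  have Φn : ∀ ζ : ℂ, ‖ζ‖ = 1 → Φ ζ ∉ Ω := by
    intro ζ hζ hm
    have hζ' : ζ ∈ closedBall (0 : ℂ) 1 := mem_closedBall_zero_iff.2 hζ.le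
    have := mem_closure_iff_nhdsWithin_neBot.1 (cl ▸ hζ')
    have a1 := (hc.dψ.continuousOn.continuousAt (Ωo.mem_nhds hm)).tendsto.comp
      ((Φc ζ hζ').mono ball_subset_closedBall).tendsto
    have a2 : ψ (Φ ζ) = ζ := tendsto_nhds_unique a1 ((tendsto_id.mono_left
      nhdsWithin_le_nhds).congr' (eventually_mem_nhdsWithin.mono fun w hw => by
        simp only [Function.comp, Φe hw, hc.r w hw, id]))
    have := mem_ball_zero_iff.1 (hc.mψ hm)
    rw [a2] at this; linarith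
  have n0 : (0 : ℂ) ∉ Ω := fun h => by simpa [f0] using h.2.2
  obtain ⟨ξ, ξ1, ξ0⟩ : (0 : ℂ) ∈ Φ '' closedBall 0 1 := by
    refine closure_minimal (s := Ω) (t := Φ '' closedBall 0 1) (fun y hy => ?_)
      ((isCompact_closedBall _ _).image_of_continuousOn Φc).isClosed ?_
    · exact ⟨ψ y, ball_subset_closedBall (hc.mψ hy), by rw [Φe (hc.mψ hy), hc.l y hy]⟩
    · refine mem_closure_of_tendsto (f := fun t : ℝ => (t : ℂ) * I) (b := 𝓝[>] 0) ?_ ?_
      · have : Continuous fun τ : ℝ => (τ : ℂ) * I := by fun_prop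
        simpa using (this.tendsto 0).mono_left nhdsWithin_le_nhds
      · filter_upwards [Ioo_mem_nhdsGT h0] with t ht
        refine ⟨by simpa using ρ0, ?_, by simpa [f0] using ht.1⟩
        rw [← sub_mul, ← ofReal_sub, norm_mul, norm_I, mul_one, norm_real, Real.norm_eq_abs, abs_lt]
        constructor <;> linarith [ht.1, ht.2]
  have ξn : ‖ξ‖ = 1 := by
    refine le_antisymm (mem_closedBall_zero_iff.1 ξ1) (not_lt.1 fun hl => n0 ?_)
    rw [← ξ0, Φe (mem_ball_zero_iff.2 hl)]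
    exact hc.mφ (mem_ball_zero_iff.2 hl)
  set E : ℂ → ℂ := fun w => ξ * exp (I * w) with hE
  have En : ∀ w, ‖E w‖ = Real.exp (-w.im) := fun w => by simp [hE, ξn, norm_exp]
  have Ed : Differentiable ℂ E := by fun_prop
  have Eb : ∀ w : ℂ, 0 < w.im → E w ∈ ball (0 : ℂ) 1 := fun w hw => by
    rw [mem_ball_zero_iff, En]; exact Real.exp_lt_one_iff.2 (by linarith)
  have Ec : ∀ w : ℂ, 0 ≤ w.im → E w ∈ closedBall (0 : ℂ) 1 := fun w hw => by
    rw [mem_closedBall_zero_iff, En]; exact Real.exp_le_one_iff.2 (by linarith)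
  set γ : ℂ → ℂ := fun w => Φ (E w) with hγ
  have γc : ContinuousOn γ {w | 0 ≤ w.im} := Φc.comp Ed.continuous.continuousOn Ec
  have γ0 : γ 0 = 0 := by simp [hγ, hE, ξ0]
  have γd : ∀ w : ℂ, 0 < w.im → DifferentiableAt ℂ γ w := fun w hw => by
    refine ((hc.dφ.differentiableAt (isOpen_ball.mem_nhds (Eb w hw))).comp w
      (Ed w)).congr_of_eventuallyEq ?_
    filter_upwards [(isOpen_lt continuous_const continuous_im).mem_nhds hw] with z hz
    exact Φe (Eb z hz)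
  have γΩ : ∀ w : ℂ, 0 < w.im → γ w ∈ Ω := fun w hw => by
    simp only [hγ, Φe (Eb w hw)]; exact hc.mφ (Eb w hw)
  obtain ⟨r', r0, hr'⟩ := Metric.continuousWithinAt_iff.1 (γc 0 (by simp)) ρ ρ0
  simp only [γ0, dist_zero_right] at hr'
  have γρ : ∀ w ∈ Hc r', ‖γ w‖ < ρ := fun w hw => hr' hw.2 hw.1
  have γr : ∀ w ∈ Hc r', γ w ∈ ball (0 : ℂ) r := fun w hw =>
    mem_ball_zero_iff.2 (by linarith [γρ w hw])
  have γg : ∀ t : ℝ, |t| < r' → (γ t).im = f (γ t).re := by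
    intro t ht
    have a1 := γρ t (real_Hc ht)
    have a2 : f (γ t).re ≤ (γ t).im := closure_minimal (t := {y : ℂ | f y.re ≤ y.im})
      (fun y hy => hy.2.2.le) (isClosed_le (fL.continuous.comp continuous_re) continuous_im)
      (Φcl _ (Ec t (by simp)))
    refine le_antisymm (not_lt.1 fun hl => Φn (E t) (by simp [En]) ⟨?_, ?_, hl⟩) a2
    · exact (abs_re_le_norm _).trans_lt a1
    · linarith [norm_sub_le (γ t) (h * I)]
  have γc' : ContinuousOn γ (Hc r') := γc.mono fun w hw => hw.2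
  obtain ⟨A, B, δ, hA, hB, A0, B0, δ0, e⟩ := struct (Z := fun w => a * γ w) (F := H ∘ γ) r0
    (continuousOn_const.mul γc') (fun w _ hw => (γd w hw).const_mul a) (Hcn.comp γc' γr)
    (fun w hw h => (Hd _ (γr w hw) (γΩ w h).2.2).comp w (γd w h)) (by simp [γ0])
    (fun t ht => Hb _ (γr t (real_Hc ht)) (γg t ht))
  set x : ℝ := 1 / (1 + L ^ 2) with hx
  have x0 : 0 < x := by positivity
  have xe : x * L ^ 2 = 1 - x := by rw [hx]; field_simp; ring
  have x1 : x ≤ 1 := by nlinarith [mul_nonneg x0.le (sq_nonneg (L : ℝ))]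
  set θ := Real.arccos (-(1 - x / 2)) with hθ
  have θ0 : 0 < θ := Real.arccos_pos.2 (by linarith)
  have θ1 : θ < Real.pi := Real.arccos_lt_pi.2 (by linarith)
  have hπ := Real.pi_pos
  have sec := fun ζ hζ => sector (G := fun ζ => -I * φ ζ) (g := h) (c := -(1 - x / 2))
    (α := Real.pi / 2 / θ) (hc.dφ.const_mul _)
    (fun ζ hζ => mul_ne_zero (neg_ne_zero.2 I_ne_zero) fun e => n0 (e ▸ hc.mφ hζ))
    (fun ζ hζ => by
      obtain ⟨-, -, a1⟩ := hc.mφ hζ
      set y := φ ζ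
      have a2 := fL.dist_le_mul y.re 0
      rw [Real.dist_eq, Real.dist_eq, f0, sub_zero, sub_zero] at a2
      simp only [norm_mul, norm_neg, norm_I, one_mul, neg_mul, neg_re, mul_re, I_re, I_im,
        zero_mul, zero_sub, neg_neg]
      rcases le_or_gt 0 y.im with a3 | a3
      · nlinarith [norm_nonneg y]
      have a4 : |y.im| ≤ L * |y.re| := by rw [abs_of_neg a3]; linarith [(abs_le.1 a2).1]
      have a5 : y.im ^ 2 ≤ L ^ 2 * y.re ^ 2 := by
        have := pow_le_pow_left₀ (abs_nonneg _) a4 2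
        rwa [mul_pow, sq_abs, sq_abs] at this
      have a6 : ‖y‖ ^ 2 = y.re ^ 2 + y.im ^ 2 := by rw [Complex.sq_norm, normSq_apply]; ring
      have a7 : y.im ^ 2 ≤ ((1 - x / 2) * ‖y‖) ^ 2 := by
        have b1 : x * y.im ^ 2 ≤ (1 - x) * y.re ^ 2 := by
          rw [← xe, mul_assoc]; exact mul_le_mul_of_nonneg_left a5 x0.le
        have b2 : (1 - x) * ‖y‖ ^ 2 ≤ (1 - x / 2) ^ 2 * ‖y‖ ^ 2 :=
          mul_le_mul_of_nonneg_right (by nlinarith) (sq_nonneg _)
        rw [mul_pow]; rw [a6] at b2 ⊢; linarith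
      exact (abs_le.1 (abs_le_of_sq_le_sq a7 (mul_nonneg (by linarith) (norm_nonneg _)))).1)
    (by linarith) (by positivity) (le_of_eq (by rw [← hθ]; field_simp))
    (by simp only [conf_p hc pΩ]; linear_combination (-h : ℂ) * I_mul_I) h0 (ζ := ζ) hζ
  obtain ⟨e, lam, Z', e0, h1, h2⟩ := dir hA hB A0 B0 δ0 e (c := h ^ (Real.pi / 2 / θ) / 4)
    (α := Real.pi / 2 / θ) (by positivity) (by rw [lt_div_iff₀ θ0]; linarith) (by
      filter_upwards [Ioo_mem_nhdsGT one_pos] with τ hτ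
      have a1 : 0 < ((τ : ℂ) * I).im := by simpa using hτ.1
      have a2 := sec _ (Eb _ a1)
      simp only [norm_mul, norm_neg, norm_I, one_mul, ha, hγ, Φe (Eb _ a1), En] at a2 ⊢
      refine le_trans ?_ a2
      have a3 : Real.exp (-((τ : ℂ) * I).im) ≤ 1 - τ / 2 := by
        have := Real.add_one_le_exp τ
        rw [show ((τ : ℂ) * I).im = τ by simp, Real.exp_neg, inv_le_iff_one_le_mul₀ (Real.exp_pos _)]
        nlinarith [hτ.1, hτ.2]
      have : 0 < h ^ (Real.pi / 2 / θ) := by positivity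
      nlinarith)
  have a0 : a ≠ 0 := norm_pos_iff.1 (by linarith)
  have hI : ∀ᶠ t : ℝ in 𝓝 0, |t| < r' := by
    filter_upwards [Ioo_mem_nhds (neg_lt_zero.2 r0) r0] with t ht using abs_lt.2 ht
  refine curve2 fL (γ := fun t => γ t) (γ' := fun t => a⁻¹ * Z' t) (lam := lam) (e := a⁻¹ * e)
    (mul_ne_zero (inv_ne_zero a0) e0) ((γc.comp_continuous continuous_ofReal
      (by simp)).continuousAt) (by simpa using γ0) (h1.mono fun t h => ⟨?_,
      continuousAt_const.mul h.2.1, h.2.2⟩) (hI.mono γg)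
    ((h2.const_mul a⁻¹).congr fun t => by ring)
  refine (h.1.const_mul a⁻¹).congr_of_eventuallyEq (Eventually.of_forall fun t => ?_)
  simp only [inv_mul_cancel_left₀ a0]

end Pool.Agent.H.MP_354547_an
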