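import Pool.Agent.H.MP_354547_an.C

open Set Filter Metric Complex Topology ComplexConjugate MeasureTheory ContinuousLinearMap
open scoped Convolution

namespace Pool.Agent.H.MP_354547_an

abbrev EE := EuclideanSpace ℝ (Fin 2)

noncomputable def pd (i : Fin 2) (k : EE → ℝ) : EE → ℝ :=
  fun x => fderiv ℝ k x (EuclideanSpace.single i (1 : ℝ))

noncomputable def cv (g k : EE → ℝ) : EE → ℝ := g ⋆[lsmul ℝ ℝ, volume] k

lemma cv_comm (g k : EE → ℝ) : cv g k = cv k g := by
  funext x
  simp only [cv]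
  rw [convolution_lsmul_swap, convolution_lsmul]
  simp only [smul_eq_mul, mul_comm]

lemma pd_cv {g k : EE → ℝ} (hg : Continuous g) (hk : ContDiff ℝ 1 k) (hc : HasCompactSupport k)
    (i : Fin 2) : pd i (cv g k) = cv g (pd i k) := by
  funext x
  simp only [pd, cv]
  rw [(hc.hasFDerivAt_convolution_right (lsmul ℝ ℝ) hg.locallyIntegrable hk x).fderiv,
    convolution_precompR_apply _ hg.locallyIntegrable (hc.fderiv ℝ)
      (hk.continuous_fderiv one_ne_zero)]
  rfl

lemma pd_cd {k : EE → ℝ} {m n : WithTop ℕ∞} (hk : ContDiff ℝ n k) (h : m + 1 ≤ n) (i : Fin 2) :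
    ContDiff ℝ m (pd i k) := (hk.fderiv_right h).clm_apply contDiff_const

lemma pd_cs {k : EE → ℝ} (hc : HasCompactSupport k) (i : Fin 2) : HasCompactSupport (pd i k) :=
  hc.fderiv_apply ℝ _

lemma pd_sub {k : EE → ℝ} (hk : Differentiable ℝ k) (x : EE) (i : Fin 2) :
    pd i (fun t => k (x - t)) = fun t => -pd i k (x - t) := by
  funext t
  simp only [pd]
  have : HasFDerivAt (fun t => k (x - t)) _ t :=
    (hk (x - t)).hasFDerivAt.comp t ((hasFDerivAt_id t).const_sub x)
  rw [this.fderiv]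
  simp

lemma pd_neg (k : EE → ℝ) (i : Fin 2) : pd i (fun t => -k t) = fun t => -pd i k t := by
  funext t
  simp [pd, fderiv_fun_neg]

noncomputable def T0 : ℂ ≃ₗᵢ[ℝ] EE := orthonormalBasisOneI.repr

lemma T0_0 (z : ℂ) : T0 z 0 = z.re := by simp [T0]

lemma T0_1 (z : ℂ) : T0 z 1 = z.im := by simp [T0]

lemma T0_one : T0 1 = EuclideanSpace.single 0 (1 : ℝ) := by
  ext i; fin_cases i <;> simp [T0]

lemma T0_I : T0 I = EuclideanSpace.single 1 (1 : ℝ) := by
  ext i; fin_cases i <;> simp [T0]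

noncomputable def HH (g : EE → ℝ) (z : ℂ) : ℂ :=
  (z.re * z.re : ℝ) - 2 * ((pd 0 g (T0 z) : ℝ) - I * (pd 1 g (T0 z) : ℝ))

lemma holo {w : EE → ℝ} (hw : ContDiff ℝ 2 w) {z : ℂ}
    (h : pd 0 (pd 0 w) (T0 z) + pd 1 (pd 1 w) (T0 z) = z.re) : DifferentiableAt ℂ (HH w) z := by
  have d : ∀ i, HasFDerivAt (fun z => ((pd i w (T0 z) : ℝ) : ℂ)) _ z := fun i =>
    ofRealCLM.hasFDerivAt.comp z
      ((((pd_cd (m := 1) hw le_rfl i).differentiable one_ne_zero) (T0 z)).hasFDerivAt.comp z
      T0.toContinuousLinearEquiv.hasFDerivAt)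
  have d2 := (ofRealCLM.hasFDerivAt.comp z ((reCLM.hasFDerivAt (x := z)).mul
    reCLM.hasFDerivAt)).sub (((d 0).sub ((d 1).const_mul I)).const_mul 2)
  have d3 : HasFDerivAt (HH w) _ z := d2
  refine differentiableAt_complex_iff_differentiableAt_real.2 ⟨d3.differentiableAt, ?_⟩
  have sy : pd 1 (pd 0 w) (T0 z) = pd 0 (pd 1 w) (T0 z) := by
    have h1 := (hw.contDiffAt (x := T0 z)).isSymmSndFDerivAt (by simp)
    have h2 : DifferentiableAt ℝ (fderiv ℝ w) (T0 z) :=
      (hw.fderiv_right (m := 1) le_rfl).differentiable one_ne_zero _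
    unfold pd
    rw [fderiv_clm_apply h2 (differentiableAt_const _), fderiv_clm_apply h2
      (differentiableAt_const _)]
    simpa using h1 _ _
  rw [d3.fderiv]
  simp only [pd] at sy h
  apply Complex.ext <;> simp [T0_one, T0_I] <;> linarith

lemma weyl {g : EE → ℝ} (hg : ContDiff ℝ 1 g) (hcs : HasCompactSupport g) {W : Set EE}
    (hW : IsOpen W) (h : ∀ φ : EE → ℝ, ContDiff ℝ 2 φ → HasCompactSupport φ → tsupport φ ⊆ W →
      ∫ x, g x * (∑ i : Fin 2, pd i (pd i φ) x) = ∫ x, x 0 * φ x) {z : ℂ} (hz : T0 z ∈ W) :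
    DifferentiableAt ℂ (HH g) z := by
  obtain ⟨δ, δ0, hδ⟩ := Metric.isOpen_iff.1 hW _ hz
  let b : ℕ → ContDiffBump (0 : EE) := fun n =>
    ⟨δ / 4 * (1 / (n + 1)), δ / 2 * (1 / (n + 1)), by positivity, by gcongr; norm_num⟩
  have bo : ∀ n, (b n).rOut ≤ δ / 2 := fun n => mul_le_of_le_one_right (by positivity)
    (by rw [div_le_one (by positivity)]; linarith [Nat.cast_nonneg (α := ℝ) n])
  have bt : Tendsto (fun n => (b n).rOut) atTop (𝓝 0) := by
    simpa [b] using tendsto_one_div_add_atTop_nhds_zero_nat.const_mul (δ / 2)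
  refine (TendstoLocallyUniformlyOn.differentiableOn (φ := atTop) (U := ball z (δ / 2))
    (F := fun n => HH (cv g ((b n).normed volume))) (TendstoUniformly.tendstoUniformlyOn
      ?_).tendstoLocallyUniformlyOn (Eventually.of_forall fun n y hy => ?_)
    isOpen_ball).differentiableAt (ball_mem_nhds _ (by positivity))
  · rw [Metric.tendstoUniformly_iff]
    intro ε hε
    have key : ∀ i, ∀ᶠ n in atTop, ∀ x, |pd i (cv g ((b n).normed volume)) x - pd i g x| ≤ ε / 5 := by
      intro i
      have c1 : Continuous (pd i g) := (pd_cd (m := 0) hg le_rfl i).continuous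
      obtain ⟨η, η0, hη⟩ := Metric.uniformContinuous_iff.1
        ((pd_cs hcs i).uniformContinuous_of_continuous c1) (ε / 5) (by positivity)
      filter_upwards [bt.eventually (gt_mem_nhds η0)] with n hn x
      rw [cv_comm, pd_cv (b n).continuous_normed hg hcs]
      exact (b n).dist_normed_convolution_le c1.aestronglyMeasurable
        fun y hy => (hη ((mem_ball.1 hy).trans hn)).le
    filter_upwards [key 0, key 1] with n h0 h1 y
    rw [dist_comm, dist_eq_norm]
    set w := cv g ((b n).normed volume)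
    rw [show HH w y - HH g y = -2 * (((pd 0 w (T0 y) - pd 0 g (T0 y) : ℝ) : ℂ)
      - I * ((pd 1 w (T0 y) - pd 1 g (T0 y) : ℝ) : ℂ)) by simp only [HH]; push_cast; ring, norm_mul]
    have := norm_sub_le ((pd 0 w (T0 y) - pd 0 g (T0 y) : ℝ) : ℂ)
      (I * ((pd 1 w (T0 y) - pd 1 g (T0 y) : ℝ) : ℂ))
    rw [norm_mul, norm_I, one_mul, norm_real, norm_real, Real.norm_eq_abs, Real.norm_eq_abs] at this
    have h2 : ‖(-2 : ℂ)‖ = 2 := by simp
    rw [h2]
    linarith [h0 (T0 y), h1 (T0 y)]
  · set ρ := (b n).normed volume with hρ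
    have r3 : ContDiff ℝ 3 ρ := (b n).contDiff_normed (n := 3)
    have r2 : ContDiff ℝ 2 ρ := (b n).contDiff_normed (n := 2)
    have rc : HasCompactSupport ρ := (b n).hasCompactSupport_normed
    refine (holo (rc.contDiff_convolution_right (n := 2) _ hg.continuous.locallyIntegrable r2)
      ?_).differentiableWithinAt
    have e1 : ∀ i, pd i (pd i (cv g ρ)) = cv g (pd i (pd i ρ)) := fun i => by
      rw [pd_cv hg.continuous (r2.of_le one_le_two) rc,
        pd_cv hg.continuous (pd_cd r2 le_rfl i) (pd_cs rc i)]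
    change pd 0 (pd 0 (cv g ρ)) _ + pd 1 (pd 1 (cv g ρ)) _ = _
    set x := T0 y with hx
    have e2 : ∀ i, pd i (pd i fun t => ρ (x - t)) = fun t => pd i (pd i ρ) (x - t) := fun i => by
      rw [pd_sub (r2.differentiable two_ne_zero), pd_neg,
        pd_sub ((pd_cd (m := 1) r2 le_rfl i).differentiable one_ne_zero)]
      simp
    have ts : tsupport (fun t => ρ (x - t)) ⊆ closedBall x (δ / 2) := by
      refine closure_minimal (fun t ht => ?_) isClosed_closedBall
      have h1 : x - t ∈ Function.support ρ := ht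
      rw [hρ, (b n).support_normed_eq, mem_ball_zero_iff] at h1
      rw [mem_closedBall, dist_comm, dist_eq_norm]
      linarith [bo n]
    have h1 := h (fun t => ρ (x - t)) (r2.comp (contDiff_const.sub contDiff_id))
      ((isCompact_closedBall x (δ / 2)).of_isClosed_subset (isClosed_tsupport _) ts)
      (ts.trans ((closedBall_subset_ball' ?_).trans hδ))
    · have ii : ∀ i, Integrable fun t => g t * pd i (pd i ρ) (x - t) := fun i =>
        (hg.continuous.mul ((pd_cd (m := 0) (pd_cd (m := 1) r2 le_rfl i) le_rfl i).continuous.comp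
          (continuous_const.sub continuous_id))).integrable_of_hasCompactSupport hcs.mul_right
      simp only [e2, Fin.sum_univ_two, mul_add] at h1
      rw [integral_add (ii 0) (ii 1)] at h1
      rw [e1, e1]
      refine h1.trans ?_
      have h2 : ∫ t : EE, t 0 * ρ t = 0 := by
        have h3 := integral_neg_eq_self (fun t : EE => t 0 * ρ t) volume
        simp only [hρ, ContDiffBump.normed_neg, PiLp.neg_apply, neg_mul, integral_neg] at h3
        linarith
      have h4 := integral_sub_left_eq_self (fun t : EE => (x - t) 0 * ρ t) volume x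
      simp only [sub_sub_cancel] at h4
      rw [h4]
      simp only [PiLp.sub_apply, sub_mul]
      have i1 : Integrable fun t : EE => x 0 * ρ t := (b n).integrable_normed.const_mul _
      have i2 : Integrable fun t : EE => t 0 * ρ t :=
        Continuous.integrable_of_hasCompactSupport (by have := r2.continuous; fun_prop) rc.mul_left
      rw [integral_sub i1 i2, h2, integral_const_mul, (b n).integral_normed, hx, T0_0]
      simp
    · rw [hx, T0.dist_map]
      linarith [mem_ball.1 hy]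

lemma HH_cont {g : EE → ℝ} (hg : ContDiff ℝ 1 g) : Continuous (HH g) := by
  have c0 : Continuous (pd 0 g) := (pd_cd (m := 0) hg le_rfl 0).continuous
  have c1 : Continuous (pd 1 g) := (pd_cd (m := 0) hg le_rfl 1).continuous
  have c2 := T0.continuous
  unfold HH
  fun_prop

lemma cutoff {u : EE → ℝ} (hu : ContDiffOn ℝ 1 u (ball 0 2)) :
    ∃ g : EE → ℝ, ContDiff ℝ 1 g ∧ HasCompactSupport g ∧ EqOn g u (ball 0 1) := by
  let b : ContDiffBump (0 : EE) := ⟨1, 3 / 2, by norm_num, by norm_num⟩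
  refine ⟨fun x => b x * u x, contDiff_iff_contDiffAt.2 fun x => ?_, b.hasCompactSupport.mul_right,
    fun x hx => ?_⟩
  · by_cases hx : x ∈ ball (0 : EE) 2
    · exact b.contDiff.contDiffAt.mul (hu.contDiffAt (isOpen_ball.mem_nhds hx))
    · have : x ∉ tsupport b := by
        rw [b.tsupport_eq]
        exact fun h => hx (closedBall_subset_ball (by norm_num [b]) h)
      refine (contDiffAt_const (c := 0)).congr_of_eventuallyEq ?_
      filter_upwards [notMem_tsupport_iff_eventuallyEq.1 this] with z hz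
      simp [hz]
  · simp [b.one_of_mem_closedBall (ball_subset_closedBall hx)]

theorem main {D : Set EE} {u : EE → ℝ} (hD : IsOpen D) (h0 : (0 : EE) ∈ frontier D) {r : ℝ}
    (hr : 0 < r) (R : EE ≃ₗᵢ[ℝ] EE) {f : ℝ → ℝ} {L : NNReal} (fL : LipschitzWith L f)
    (hf : ∀ x ∈ ball (0 : EE) r, (x ∈ D ↔ f ((R x) 0) < (R x) 1))
    (hu : ContDiffOn ℝ 1 u (ball 0 2))
    (hw : ∀ φ : EE → ℝ, ContDiff ℝ 2 φ → HasCompactSupport φ → tsupport φ ⊆ ball (0 : EE) 2 →
      ∫ x, u x * (∑ i : Fin 2, pd i (pd i φ) x)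
        = ∫ x, x 0 * D.indicator (fun _ => (1 : ℝ)) x * φ x)
    (hz : ∀ x ∈ ball (0 : EE) 2, x ∉ closure D → u x = 0) : ContDiffAt ℝ 1 f 0 := by
  have fc := fL.continuous
  have Rc := R.continuous
  have out : ∀ x ∈ ball (0 : EE) r, (R x) 1 < f ((R x) 0) → x ∉ closure D := by
    intro x hx h hc
    obtain ⟨y, ⟨y1, y2⟩, y3⟩ := _root_.mem_closure_iff.1 hc
      (ball 0 r ∩ {x | (R x) 1 < f ((R x) 0)})
      (isOpen_ball.inter (isOpen_lt (by fun_prop) (by fun_prop))) ⟨hx, h⟩
    exact lt_asymm ((hf y y1).1 y3) y2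
  have f0 : f 0 = 0 := by
    rcases lt_trichotomy (f 0) 0 with h | h | h
    · exact absurd ((hf 0 (mem_ball_self hr)).2 (by simpa using h)) (hD.frontier_eq ▸ h0).2
    · exact h
    · exact absurd (frontier_subset_closure h0) (out 0 (mem_ball_self hr) (by simpa using h))
  obtain ⟨g, hg, gc, ge⟩ := cutoff hu
  have b12 : ball (0 : EE) 1 ⊆ ball 0 2 := ball_subset_ball one_le_two
  have H1 : ∀ z, T0 z ∈ D ∩ ball 0 1 → DifferentiableAt ℂ (HH g) z := by
    intro z
    refine weyl hg gc (hD.inter isOpen_ball) fun φ p1 p2 p3 => ?_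
    refine Eq.trans ?_ ((hw φ p1 p2 fun x hx => b12 (p3 hx).2).trans ?_)
    · refine integral_congr_ae (Eventually.of_forall fun x => ?_)
      by_cases hx : x ∈ tsupport φ
      · simp only [ge (p3 hx).2]
      · have : ∀ i, pd i (pd i φ) x = 0 := fun i => image_eq_zero_of_notMem_tsupport fun h =>
          hx (tsupport_fderiv_apply_subset ℝ _ (tsupport_fderiv_apply_subset ℝ _ h))
        simp [this]
    · refine integral_congr_ae (Eventually.of_forall fun x => ?_)
      by_cases hx : x ∈ tsupport φ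
      · simp [(p3 hx).1]
      · simp [image_eq_zero_of_notMem_tsupport hx]
  set S : ℂ ≃ₗᵢ[ℝ] ℂ := (T0.trans R.symm).trans T0.symm with hS
  have eS : ∀ y, T0 (S y) = R.symm (T0 y) := fun y => by simp [hS]
  set r1 := min r 1
  have r0 : 0 < r1 := by positivity
  have nb : ∀ y ∈ ball (0 : ℂ) r1, T0 (S y) ∈ ball (0 : EE) r ∧ T0 (S y) ∈ ball (0 : EE) 1 := by
    intro y hy
    simp only [mem_ball_zero_iff, LinearIsometryEquiv.norm_map] at hy ⊢
    exact lt_min_iff.1 hy
  have H2 : ∀ y ∈ ball (0 : ℂ) r1, f y.re < y.im → DifferentiableAt ℂ (HH g) (S y) :=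
    fun y hy h => H1 _ ⟨(hf _ (nb y hy).1).2 (by simpa [eS, T0_0, T0_1] using h), (nb y hy).2⟩
  have H3 : ∀ y ∈ ball (0 : ℂ) r1, y.im = f y.re → HH g (S y) = ((S y).re ^ 2 : ℝ) := by
    intro y hy h
    have c1 : Continuous fun τ : ℝ => y - τ * I := by fun_prop
    have t1 : Tendsto (fun τ : ℝ => y - τ * I) (𝓝[>] 0) (𝓝 y) := by
      simpa using (c1.tendsto 0).mono_left nhdsWithin_le_nhds
    have e1 : fderiv ℝ g (T0 (S y)) = 0 := by
      refine tendsto_nhds_unique ((((hg.continuous_fderiv one_ne_zero).comp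
        (T0.continuous.comp S.continuous)).tendsto y).comp t1) (tendsto_const_nhds.congr' ?_)
      filter_upwards [t1.eventually (isOpen_ball.mem_nhds hy), self_mem_nhdsWithin] with τ h1 h2
      have h3 := out _ (nb _ h1).1 (by simpa [eS, T0_0, T0_1, h] using h2)
      have h4 : g =ᶠ[𝓝 (T0 (S (y - τ * I)))] fun _ => 0 := by
        filter_upwards [isOpen_ball.mem_nhds (nb _ h1).2,
          isClosed_closure.isOpen_compl.mem_nhds h3] with x a1 a2
        rw [ge a1, hz x (b12 a1) a2]
      simp only [Function.comp, h4.fderiv_eq]; simp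
    simp [HH, pd, e1, sq]
  obtain ⟨a, ha | ha⟩ := linear_isometry_complex S
  · have e : ∀ y, S y = a * y := fun y => by rw [ha]; rfl
    refine cx fL f0 r0 (a := a) (H := fun y => HH g (a * y)) a.norm_coe
      ((HH_cont hg).comp (by fun_prop)).continuousOn (fun y hy h => ?_) (fun y hy h => ?_)
    · exact DifferentiableAt.comp (f := fun y : ℂ => (a : ℂ) * y) y (e y ▸ H2 y hy h) (by fun_prop)
    · simpa only [e] using H3 y hy h
  · have e : ∀ y, S y = a * conj y := fun y => by rw [ha]; rfl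
    refine cx fL f0 r0 (a := conj a) (H := conj ∘ (fun y => HH g (a * y)) ∘ conj)
      (by rw [RCLike.norm_conj]; exact a.norm_coe)
      (continuous_conj.comp (((HH_cont hg).comp (by fun_prop)).comp continuous_conj)).continuousOn
      (fun y hy h => ?_) (fun y hy h => ?_)
    · have := (DifferentiableAt.comp (f := fun y : ℂ => (a : ℂ) * y) (conj y) (e y ▸ H2 y hy h)
        (by fun_prop)).conj_conj
      rwa [conj_conj] at this
    · simp only [Function.comp, ← e, H3 y hy h, conj_ofReal]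
      rw [e]; simp

end Pool.Agent.H.MP_354547_an
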